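import Pool.Agent.helper95.FJ.SpecE

/-!
# MP_ad8ced_nt, row fj:CWG: the elements `w` for a given `z` and a given prime
-/

set_option autoImplicit false

open Finset

noncomputable section

namespace Pool.Agent.FJ

open Pool.Agent.FI

/-- Integers of an interval of length `D` in one residue class. -/
theorem CWG_cls (T : Finset ℤ) (g : ℕ) (D : ℝ) (hg : 0 < g) (hD : 0 ≤ D)
    (h1 : ∀ a ∈ T, ∀ b ∈ T, |(a : ℝ) - b| ≤ D) (h2 : ∀ a ∈ T, ∀ b ∈ T, (g : ℤ) ∣ a - b) :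
    (#T : ℝ) ≤ D / g + 1 := by
  have hgR : (0 : ℝ) < g := by exact_mod_cast hg
  by_cases hne : T.Nonempty
  · obtain ⟨a₀, ha₀⟩ : ∃ a₀, a₀ = T.min' hne := ⟨_, rfl⟩
    have ha0 : a₀ ∈ T := by
      rw [ha₀]
      exact Finset.min'_mem _ _
    have hmin : ∀ a ∈ T, a₀ ≤ a := by
      intro a ha
      rw [ha₀]
      exact Finset.min'_le _ _ ha
    have hk : ∀ a ∈ T, ∃ k : ℕ, a = a₀ + g * k := by
      intro a ha
      obtain ⟨k, hk⟩ := h2 a ha a₀ ha0
      have h3 := hmin a ha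
      have hg' : (0 : ℤ) < g := by exact_mod_cast hg
      have hk0 : 0 ≤ k := by
        by_contra h
        have h4 : (g : ℤ) * k < 0 := mul_neg_of_pos_of_neg hg' (not_le.1 h)
        linarith
      refine ⟨k.toNat, ?_⟩
      rw [Int.toNat_of_nonneg hk0]
      linarith
    choose! f hf using hk
    have hcard : #T ≤ #(range (⌊D / g⌋₊ + 1)) := by
      refine Finset.card_le_card_of_injOn f ?_ ?_
      · intro a ha
        have ha' : a ∈ T := ha
        rw [Finset.coe_range, Set.mem_Iio, Nat.lt_succ_iff]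
        refine Nat.le_floor ?_
        rw [le_div_iff₀ hgR]
        have h3 := h1 a ha' a₀ ha0
        have h4 : (a : ℝ) = a₀ + g * f a := by
          exact_mod_cast hf a ha'
        rw [h4] at h3
        have h5 := (abs_le.1 h3).2
        linarith
      · intro a ha b hb hab
        have ha' : a ∈ T := ha
        have hb' : b ∈ T := hb
        have h3 : f a = f b := hab
        rw [hf a ha', hf b hb', h3]
    rw [Finset.card_range] at hcard
    have h3 : (#T : ℝ) ≤ ⌊D / g⌋₊ + 1 := by exact_mod_cast hcard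
    have h4 : (⌊D / g⌋₊ : ℝ) ≤ D / g := Nat.floor_le (by positivity)
    linarith
  · rw [Finset.not_nonempty_iff_eq_empty] at hne
    rw [hne, Finset.card_empty, Nat.cast_zero]
    positivity

/-- Two coordinates. -/
theorem CWG_two (F : Finset (ℤ × ℤ)) (f h : ℤ × ℤ → ℤ) (g₁ g₂ : ℕ) (D₁ D₂ : ℝ) (hg₁ : 0 < g₁) (hg₂ : 0 < g₂)
    (hD₁ : 0 ≤ D₁) (hD₂ : 0 ≤ D₂) (hinj : ∀ z z' : ℤ × ℤ, f z = f z' → h z = h z' → z = z')
    (h1 : ∀ z ∈ F, ∀ z' ∈ F, |(f z : ℝ) - f z'| ≤ D₁) (h1' : ∀ z ∈ F, ∀ z' ∈ F, (g₁ : ℤ) ∣ f z - f z')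
    (h2 : ∀ z ∈ F, ∀ z' ∈ F, f z = f z' → |(h z : ℝ) - h z'| ≤ D₂)
    (h2' : ∀ z ∈ F, ∀ z' ∈ F, f z = f z' → (g₂ : ℤ) ∣ h z - h z') :
    (#F : ℝ) ≤ (D₁ / g₁ + 1) * (D₂ / g₂ + 1) := by
  classical
  have hc : #F = ∑ b ∈ F.image f, #{z ∈ F | f z = b} :=
    Finset.card_eq_sum_card_fiberwise fun z hz => Finset.mem_coe.2 (Finset.mem_image_of_mem f hz)
  have hfib : ∀ b ∈ F.image f, (#{z ∈ F | f z = b} : ℝ) ≤ D₂ / g₂ + 1 := by
    intro b _
    have h3 : #{z ∈ F | f z = b} = #(({z ∈ F | f z = b}).image h) := by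
      rw [Finset.card_image_of_injOn]
      intro z hz z' hz' hh
      have e1 := (Finset.mem_filter.1 (Finset.mem_coe.1 hz)).2
      have e2 := (Finset.mem_filter.1 (Finset.mem_coe.1 hz')).2
      exact hinj z z' (e1.trans e2.symm) hh
    rw [h3]
    refine CWG_cls _ g₂ D₂ hg₂ hD₂ ?_ ?_
    · intro a ha a' ha'
      obtain ⟨z, hz, rfl⟩ := Finset.mem_image.1 ha
      obtain ⟨z', hz', rfl⟩ := Finset.mem_image.1 ha'
      obtain ⟨e1, e2⟩ := Finset.mem_filter.1 hz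
      obtain ⟨e3, e4⟩ := Finset.mem_filter.1 hz'
      exact h2 z e1 z' e3 (e2.trans e4.symm)
    · intro a ha a' ha'
      obtain ⟨z, hz, rfl⟩ := Finset.mem_image.1 ha
      obtain ⟨z', hz', rfl⟩ := Finset.mem_image.1 ha'
      obtain ⟨e1, e2⟩ := Finset.mem_filter.1 hz
      obtain ⟨e3, e4⟩ := Finset.mem_filter.1 hz'
      exact h2' z e1 z' e3 (e2.trans e4.symm)
  have him : (#(F.image f) : ℝ) ≤ D₁ / g₁ + 1 := by
    refine CWG_cls _ g₁ D₁ hg₁ hD₁ ?_ ?_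
    · intro a ha a' ha'
      obtain ⟨z, hz, rfl⟩ := Finset.mem_image.1 ha
      obtain ⟨z', hz', rfl⟩ := Finset.mem_image.1 ha'
      exact h1 z hz z' hz'
    · intro a ha a' ha'
      obtain ⟨z, hz, rfl⟩ := Finset.mem_image.1 ha
      obtain ⟨z', hz', rfl⟩ := Finset.mem_image.1 ha'
      exact h1' z hz z' hz'
  have hcR : (#F : ℝ) = ∑ b ∈ F.image f, (#{z ∈ F | f z = b} : ℝ) := by exact_mod_cast hc
  rw [hcR]
  calc ∑ b ∈ F.image f, (#{z ∈ F | f z = b} : ℝ) ≤ ∑ _b ∈ F.image f, (D₂ / g₂ + 1) := Finset.sum_le_sum hfib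
    _ = (#(F.image f) : ℝ) * (D₂ / g₂ + 1) := by rw [Finset.sum_const, nsmul_eq_mul]
    _ ≤ _ := mul_le_mul_of_nonneg_right him (by positivity)

/-- One of the coefficients is at least `√N`. -/
theorem CWG_coef (N : ℕ) (z : ℤ × ℤ) (h : N < nn z) : √(N : ℝ) ≤ |((z.1 : ℤ) : ℝ)| ∨ √(N : ℝ) ≤ |((8 * z.2 : ℤ) : ℝ)| := by
  have h1 : (N : ℤ) < |z.1 ^ 2 - 8 * z.2 ^ 2| := by
    have : ((nn z : ℕ) : ℤ) = |z.1 ^ 2 - 8 * z.2 ^ 2| := by
      unfold nn N8
      exact Int.natCast_natAbs _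
    rw [← this]
    exact_mod_cast h
  have h2 : (N : ℤ) ≤ z.1 ^ 2 ∨ (N : ℤ) ≤ (8 * z.2) ^ 2 := by
    rcases lt_abs.1 h1 with h3 | h3
    · left
      nlinarith [sq_nonneg z.2]
    · right
      nlinarith [sq_nonneg z.1, sq_nonneg z.2]
  rcases h2 with h3 | h3
  · left
    apply Real.sqrt_le_iff.2
    refine ⟨abs_nonneg _, ?_⟩
    rw [sq_abs]
    exact_mod_cast h3
  · right
    apply Real.sqrt_le_iff.2
    refine ⟨abs_nonneg _, ?_⟩
    rw [sq_abs]
    exact_mod_cast h3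

open scoped Classical in
theorem CWG : CWG_stmt := by
  refine ⟨4, by norm_num, ?_⟩
  intro N R g hN hR hg z hz Y hY
  have hgp : Prime (g : ℤ) := Nat.prime_iff_prime_int.1 hg
  have hg0 : 0 < g := hg.pos
  have hgR : (1 : ℝ) ≤ g := by exact_mod_cast hg0
  have hRR : (1 : ℝ) ≤ R := by exact_mod_cast hR
  have hN0 : (0 : ℝ) < N := by exact_mod_cast hN
  obtain ⟨-, hz1, hz2⟩ := Finset.mem_filter.1 hz
  have hcoef := CWG_coef N z hz1
  obtain ⟨S, hS⟩ : ∃ S : ℝ, S = √(N : ℝ) := ⟨_, rfl⟩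
  have hS0 : 0 < S := by
    rw [hS]
    exact Real.sqrt_pos.2 hN0
  rw [← hS] at hcoef ⊢
  obtain ⟨r, hr⟩ : ∃ r, r = z.1 := ⟨_, rfl⟩
  obtain ⟨s, hs⟩ : ∃ s, s = z.2 := ⟨_, rfl⟩
  rw [← hr, ← hs] at hz2 hcoef
  have hrs : ¬ ((g : ℤ) ∣ r ∧ (g : ℤ) ∣ s) := by
    rintro ⟨h1, h2⟩
    exact hgp.not_isUnit (hz2.isUnit_of_dvd' h1 h2)
  obtain ⟨F, hF⟩ : ∃ F, F = {w ∈ Bx R | |(ac z w : ℝ)| ≤ Y ∧ (g : ℤ) ∣ lc z w} := ⟨_, rfl⟩
  rw [← hF]
  have hFm : ∀ w ∈ F, (|(w.1 : ℝ)| ≤ R ∧ |(w.2 : ℝ)| ≤ R) ∧ |(r : ℝ) * w.1 + 8 * s * w.2| ≤ Y ∧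
      (g : ℤ) ∣ r * w.2 + s * w.1 := by
    intro w hw
    rw [hF, Finset.mem_filter] at hw
    obtain ⟨h0, h1, h2⟩ := hw
    unfold Bx at h0
    rw [Finset.mem_product, Finset.mem_Icc, Finset.mem_Icc] at h0
    refine ⟨⟨?_, ?_⟩, ?_, ?_⟩
    · rw [abs_le]
      constructor
      · exact_mod_cast h0.1.1
      · exact_mod_cast h0.1.2
    · rw [abs_le]
      constructor
      · exact_mod_cast h0.2.1
      · exact_mod_cast h0.2.2
    · unfold ac at h1
      rw [← hr, ← hs] at h1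
      push_cast at h1
      exact h1
    · unfold lc at h2
      rw [← hr, ← hs] at h2
      exact h2
  have hbd1 : ∀ w ∈ F, ∀ w' ∈ F, |((w.1 : ℤ) : ℝ) - (w'.1 : ℤ)| ≤ 2 * R := by
    intro w hw w' hw'
    have h1 := abs_le.1 (hFm w hw).1.1
    have h2 := abs_le.1 (hFm w' hw').1.1
    rw [abs_le]
    constructor
    · linarith
    · linarith
  have hbd2 : ∀ w ∈ F, ∀ w' ∈ F, |((w.2 : ℤ) : ℝ) - (w'.2 : ℤ)| ≤ 2 * R := by
    intro w hw w' hw'
    have h1 := abs_le.1 (hFm w hw).1.2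
    have h2 := abs_le.1 (hFm w' hw').1.2
    rw [abs_le]
    constructor
    · linarith
    · linarith
  have hD2 : 0 ≤ 2 * Y / S := by positivity
  have hYS : 0 ≤ Y / S := by positivity
  have hRY : 0 ≤ (R : ℝ) * Y / (g * S) := by positivity
  -- the two final estimates
  have hfin1 : (2 * (R : ℝ) / ((1 : ℕ) : ℝ) + 1) * (2 * Y / S / g + 1) ≤ 4 * (R * Y / (g * S) + R + Y / S) := by
    rw [Nat.cast_one, div_one]
    have h1 : 2 * Y / S / g ≤ 2 * (Y / S) := by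
      have h2 : 2 * Y / S / g = 2 * (Y / S) / g := by ring
      rw [h2]
      exact div_le_self (by positivity) hgR
    have h3 : (2 * (R : ℝ) + 1) * (2 * Y / S / g + 1) = 4 * (R * Y / (g * S)) + 2 * R + 2 * Y / S / g + 1 := by
      field_simp
      ring
    rw [h3]
    linarith
  have hfin2 : (2 * (R : ℝ) / g + 1) * (2 * Y / S / ((1 : ℕ) : ℝ) + 1) ≤ 4 * (R * Y / (g * S) + R + Y / S) := by
    rw [Nat.cast_one, div_one]
    have h1 : 2 * (R : ℝ) / g ≤ 2 * R := div_le_self (by positivity) hgR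
    have h3 : (2 * (R : ℝ) / g + 1) * (2 * Y / S + 1) = 4 * (R * Y / (g * S)) + 2 * R / g + 2 * (Y / S) + 1 := by
      field_simp
      ring
    rw [h3]
    linarith
  have hinj1 : ∀ z z' : ℤ × ℤ, z.1 = z'.1 → z.2 = z'.2 → z = z' := fun z z' h1 h2 => Prod.ext h1 h2
  have hinj2 : ∀ z z' : ℤ × ℤ, z.2 = z'.2 → z.1 = z'.1 → z = z' := fun z z' h1 h2 => Prod.ext h2 h1
  rcases hcoef with hc | hc
  · -- `|r|` is large: the first coordinate is controlled by the second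
    have hfb : ∀ w ∈ F, ∀ w' ∈ F, w.2 = w'.2 → |((w.1 : ℤ) : ℝ) - (w'.1 : ℤ)| ≤ 2 * Y / S := by
      intro w hw w' hw' he
      have h1 := abs_le.1 (hFm w hw).2.1
      have h2 := abs_le.1 (hFm w' hw').2.1
      have he' : (w.2 : ℝ) = w'.2 := by exact_mod_cast he
      rw [he'] at h1
      have h3 : |((w.1 : ℝ) - w'.1) * r| ≤ 2 * Y := by
        rw [abs_le]
        constructor
        · linarith
        · linarith
      rw [abs_mul] at h3
      rw [le_div_iff₀ hS0]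
      exact (mul_le_mul_of_nonneg_left hc (abs_nonneg _)).trans h3
    by_cases hgs : (g : ℤ) ∣ s
    · have hgr : ¬ (g : ℤ) ∣ r := fun h => hrs ⟨h, hgs⟩
      refine (CWG_two F Prod.snd Prod.fst g 1 (2 * R) (2 * Y / S) hg0 one_pos (by positivity) hD2 hinj2
        hbd2 ?_ hfb (fun z _ z' _ _ => by simp)).trans hfin2
      intro w hw w' hw'
      have key : ∀ w ∈ F, (g : ℤ) ∣ w.2 := by
        intro w hw
        have h1 := (hFm w hw).2.2
        have h2 : (g : ℤ) ∣ r * w.2 := (Int.dvd_add_left (Dvd.dvd.mul_right hgs _)).1 h1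
        exact (hgp.dvd_or_dvd h2).resolve_left hgr
      exact Dvd.dvd.sub (key w hw) (key w' hw')
    · refine (CWG_two F Prod.snd Prod.fst 1 g (2 * R) (2 * Y / S) one_pos hg0 (by positivity) hD2 hinj2
        hbd2 (fun z _ z' _ => by simp) hfb ?_).trans hfin1
      intro w hw w' hw' he
      have h1 := (hFm w hw).2.2
      have h2 := (hFm w' hw').2.2
      have he' : w.2 = w'.2 := he
      rw [he'] at h1
      have h3 : (g : ℤ) ∣ s * (w.1 - w'.1) := by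
        have h4 := Dvd.dvd.sub h1 h2
        have h5 : r * w'.2 + s * w.1 - (r * w'.2 + s * w'.1) = s * (w.1 - w'.1) := by ring
        rwa [h5] at h4
      exact (hgp.dvd_or_dvd h3).resolve_left hgs
  · -- `8 |s|` is large
    have hfb : ∀ w ∈ F, ∀ w' ∈ F, w.1 = w'.1 → |((w.2 : ℤ) : ℝ) - (w'.2 : ℤ)| ≤ 2 * Y / S := by
      intro w hw w' hw' he
      have h1 := abs_le.1 (hFm w hw).2.1
      have h2 := abs_le.1 (hFm w' hw').2.1
      have he' : (w.1 : ℝ) = w'.1 := by exact_mod_cast he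
      rw [he'] at h1
      have h3 : |((w.2 : ℝ) - w'.2) * ((8 * s : ℤ) : ℝ)| ≤ 2 * Y := by
        push_cast
        rw [abs_le]
        constructor
        · linarith
        · linarith
      rw [abs_mul] at h3
      rw [le_div_iff₀ hS0]
      exact (mul_le_mul_of_nonneg_left hc (abs_nonneg _)).trans h3
    by_cases hgr : (g : ℤ) ∣ r
    · have hgs : ¬ (g : ℤ) ∣ s := fun h => hrs ⟨hgr, h⟩
      refine (CWG_two F Prod.fst Prod.snd g 1 (2 * R) (2 * Y / S) hg0 one_pos (by positivity) hD2 hinj1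
        hbd1 ?_ hfb (fun z _ z' _ _ => by simp)).trans hfin2
      intro w hw w' hw'
      have key : ∀ w ∈ F, (g : ℤ) ∣ w.1 := by
        intro w hw
        have h1 := (hFm w hw).2.2
        have h2 : (g : ℤ) ∣ s * w.1 := (Int.dvd_add_right (Dvd.dvd.mul_right hgr _)).1 h1
        exact (hgp.dvd_or_dvd h2).resolve_left hgs
      exact Dvd.dvd.sub (key w hw) (key w' hw')
    · refine (CWG_two F Prod.fst Prod.snd 1 g (2 * R) (2 * Y / S) one_pos hg0 (by positivity) hD2 hinj1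
        hbd1 (fun z _ z' _ => by simp) hfb ?_).trans hfin1
      intro w hw w' hw' he
      have h1 := (hFm w hw).2.2
      have h2 := (hFm w' hw').2.2
      have he' : w.1 = w'.1 := he
      rw [he'] at h1
      have h3 : (g : ℤ) ∣ r * (w.2 - w'.2) := by
        have h4 := Dvd.dvd.sub h1 h2
        have h5 : r * w.2 + s * w'.1 - (r * w'.2 + s * w'.1) = r * (w.2 - w'.2) := by ring
        rwa [h5] at h4
      exact (hgp.dvd_or_dvd h3).resolve_left hgr

end Pool.Agent.FJ
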