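import Pool.Agent.helper94.FJ.SpecP

/-!
# fj:PB2: a block of medium length
-/

set_option autoImplicit false

namespace Pool.Agent.FJ

open Finset ArithmeticFunction MeasureTheory
open Pool.Agent.CH (nit DPb)
open Pool.Agent.SK (tr0 Th muz sml bgf zN uu)
open Pool.Agent.helper85.BVP (tau)

private theorem PB2_meas (ε : ℝ) (B₁ N : ℕ) : MeasurableSet (T2s ε B₁ N) := by
  unfold T2s
  exact (measurableSet_le measurable_const continuous_abs.measurable).inter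
    (measurableSet_le continuous_abs.measurable measurable_const)

private theorem PB2_num (R K A : ℕ) (n L ε m M' : ℝ) (hn1 : 1 ≤ n) (hL : 12 ≤ L) (hε0 : 0 < ε) (hR : (2 : ℝ) ^ (R + 4) ≤ n ^ (2 * ε))
    (hm1 : 1 ≤ m) (hM1 : 1 ≤ M') (hlow : n ^ 3 ≤ 2 ^ (R + 4) * (m * M')) (hup : m * M' ≤ 8 * n ^ 3) (hm : m ≤ n ^ (1 + 2 * ε)) :
    (m / L ^ (K + A + 1)) ^ 2 * ((n ^ (2 - 4 * ε) + M') * M' * L ^ K) ≤ n ^ 6 / L ^ A := by
  have hn0 : (0 : ℝ) < n := by linarith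
  have hL0 : (0 : ℝ) < L := by linarith
  have hM0 : (0 : ℝ) < M' := by linarith
  have hm0 : (0 : ℝ) < m := by linarith
  have h1 : n ^ (2 - 4 * ε) ≤ M' := by
    have h2 : n ^ 3 ≤ n ^ (2 * ε) * (n ^ (1 + 2 * ε) * M') :=
      hlow.trans (mul_le_mul hR (mul_le_mul_of_nonneg_right hm hM0.le) (mul_nonneg hm0.le hM0.le) (Real.rpow_nonneg hn0.le _))
    have h3 : n ^ (3 : ℕ) = n ^ (2 - 4 * ε) * (n ^ (2 * ε) * n ^ (1 + 2 * ε)) := by
      rw [← Real.rpow_add hn0, ← Real.rpow_add hn0, ← Real.rpow_natCast]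
      congr 1
      push_cast
      ring
    have h4 : (0 : ℝ) < n ^ (2 * ε) * n ^ (1 + 2 * ε) := mul_pos (Real.rpow_pos_of_pos hn0 _) (Real.rpow_pos_of_pos hn0 _)
    rw [h3] at h2
    have h5 : n ^ (2 - 4 * ε) * (n ^ (2 * ε) * n ^ (1 + 2 * ε)) ≤ M' * (n ^ (2 * ε) * n ^ (1 + 2 * ε)) := by
      calc n ^ (2 - 4 * ε) * (n ^ (2 * ε) * n ^ (1 + 2 * ε)) ≤ n ^ (2 * ε) * (n ^ (1 + 2 * ε) * M') := h2
        _ = M' * (n ^ (2 * ε) * n ^ (1 + 2 * ε)) := by ring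
    exact le_of_mul_le_mul_right h5 h4
  have h6 : (n ^ (2 - 4 * ε) + M') * M' * L ^ K ≤ 2 * M' ^ 2 * L ^ K := by
    apply mul_le_mul_of_nonneg_right _ (pow_nonneg hL0.le _)
    nlinarith
  have h7 : (m * M') ^ 2 ≤ 64 * n ^ 6 := by
    calc (m * M') ^ 2 ≤ (8 * n ^ 3) ^ 2 := pow_le_pow_left₀ (mul_nonneg hm0.le hM0.le) hup 2
      _ = 64 * n ^ 6 := by ring
  have h8 : (128 : ℝ) * L ^ (K + A) ≤ (L ^ (K + A + 1)) ^ 2 := by
    have h9 : (1 : ℝ) ≤ L ^ (K + A) := one_le_pow₀ (by linarith)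
    have h10 : (128 : ℝ) ≤ L ^ 2 := by nlinarith
    calc (128 : ℝ) * L ^ (K + A) ≤ L ^ 2 * L ^ (K + A) := mul_le_mul_of_nonneg_right h10 (pow_nonneg hL0.le _)
      _ = L ^ 2 * (L ^ (K + A) * 1) := by ring
      _ ≤ L ^ 2 * (L ^ (K + A) * L ^ (K + A)) := by
          apply mul_le_mul_of_nonneg_left _ (pow_nonneg hL0.le _)
          exact mul_le_mul_of_nonneg_left h9 (pow_nonneg hL0.le _)
      _ = (L ^ (K + A + 1)) ^ 2 := by ring
  calc (m / L ^ (K + A + 1)) ^ 2 * ((n ^ (2 - 4 * ε) + M') * M' * L ^ K)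
      ≤ (m / L ^ (K + A + 1)) ^ 2 * (2 * M' ^ 2 * L ^ K) := mul_le_mul_of_nonneg_left h6 (sq_nonneg _)
    _ = 2 * (m * M') ^ 2 * L ^ K / (L ^ (K + A + 1)) ^ 2 := by ring
    _ ≤ 2 * (64 * n ^ 6) * L ^ K / (L ^ (K + A + 1)) ^ 2 := by
        apply div_le_div_of_nonneg_right _ (by positivity)
        apply mul_le_mul_of_nonneg_right _ (pow_nonneg hL0.le _)
        linarith
    _ ≤ n ^ 6 / L ^ A := by
        rw [div_le_div_iff₀ (by positivity) (by positivity)]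
        calc 2 * (64 * n ^ 6) * L ^ K * L ^ A = n ^ 6 * (128 * L ^ (K + A)) := by ring
          _ ≤ n ^ 6 * (L ^ (K + A + 1)) ^ 2 := mul_le_mul_of_nonneg_left h8 (by positivity)

theorem PB2 : PB2_stmt := by
  intro ε hε0 hε1 R K A
  obtain ⟨N₀, hN₀⟩ : ∃ N₀ : ℕ, ∀ N : ℕ, N₀ ≤ N → (12 ≤ Real.log N ∧ (2 : ℝ) ^ (R + 4) ≤ (N : ℝ) ^ (2 * ε)) := by
    have h1 : ∀ᶠ N : ℕ in Filter.atTop, 12 ≤ Real.log (N : ℝ) :=
      (Real.tendsto_log_atTop.comp tendsto_natCast_atTop_atTop).eventually_ge_atTop 12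
    have h2 : ∀ᶠ N : ℕ in Filter.atTop, (2 : ℝ) ^ (R + 4) ≤ (N : ℝ) ^ (2 * ε) :=
      ((tendsto_rpow_atTop (by linarith : 0 < 2 * ε)).comp tendsto_natCast_atTop_atTop).eventually_ge_atTop _
    obtain ⟨N₀, h⟩ := Filter.eventually_atTop.1 (h1.and h2)
    exact ⟨N₀, fun N hN => h N hN⟩
  refine ⟨K + A + 1, max N₀ 1, fun N hN B₁ M P c hPc hM1 hlow hup hMc hsup hmv => ?_⟩
  obtain ⟨hL, hR⟩ := hN₀ N ((le_max_left _ _).trans hN)
  have hN1 : 1 ≤ N := (le_max_right _ _).trans hN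
  have hn1 : (1 : ℝ) ≤ (N : ℝ) := by exact_mod_cast hN1
  have hprod : M c * ∏ i ∈ univ.erase c, M i = ∏ i, M i := Finset.mul_prod_erase univ M (mem_univ c)
  have hM'1 : 1 ≤ ∏ i ∈ univ.erase c, M i := Finset.one_le_prod' fun i _ => hM1 i
  have hT1 : (1 : ℝ) ≤ (N : ℝ) ^ (2 - 4 * ε) := Real.one_le_rpow hn1 (by linarith)
  have hsub : T2s ε B₁ N ⊆ Set.Icc (-(N : ℝ) ^ (2 - 4 * ε)) ((N : ℝ) ^ (2 - 4 * ε)) := by
    intro t ht
    exact abs_le.1 ht.2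
  have hcont : Continuous fun t => ‖∏ i ∈ univ.erase c, P i t‖ ^ 2 :=
    ((continuous_finset_prod _ fun i _ => hPc i).norm).pow 2
  have hcont' : Continuous fun t => ‖∏ i, P i t‖ ^ 2 :=
    ((continuous_finset_prod _ fun i _ => hPc i).norm).pow 2
  have hIcc : IntegrableOn (fun t => ‖∏ i ∈ univ.erase c, P i t‖ ^ 2)
      (Set.Icc (-(N : ℝ) ^ (2 - 4 * ε)) ((N : ℝ) ^ (2 - 4 * ε))) := hcont.continuousOn.integrableOn_compact isCompact_Icc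
  have hstep1 : ∫ t in T2s ε B₁ N, ‖∏ i, P i t‖ ^ 2 ≤
      ∫ t in T2s ε B₁ N, ((M c : ℝ) / Real.log N ^ (K + A + 1)) ^ 2 * ‖∏ i ∈ univ.erase c, P i t‖ ^ 2 := by
    apply setIntegral_mono_on _ _ (PB2_meas ε B₁ N)
    · intro t ht
      rw [← Finset.mul_prod_erase univ (fun i => P i t) (mem_univ c), norm_mul, mul_pow]
      exact mul_le_mul_of_nonneg_right (pow_le_pow_left₀ (norm_nonneg _) (hsup t ht) 2) (sq_nonneg _)
    · exact (hcont'.continuousOn.integrableOn_compact isCompact_Icc).mono_set hsub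
    · exact (hIcc.mono_set hsub).const_mul _
  have hstep2 : ∫ t in T2s ε B₁ N, ‖∏ i ∈ univ.erase c, P i t‖ ^ 2 ≤
      ((N : ℝ) ^ (2 - 4 * ε) + ((∏ i ∈ univ.erase c, M i : ℕ) : ℝ)) * ((∏ i ∈ univ.erase c, M i : ℕ) : ℝ) * Real.log N ^ K := by
    refine le_trans ?_ (hmv _ hT1)
    rw [intervalIntegral.integral_of_le (by linarith), ← integral_Icc_eq_integral_Ioc]
    exact setIntegral_mono_set hIcc (Filter.Eventually.of_forall fun t => sq_nonneg _) (Filter.Eventually.of_forall hsub)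
  rw [integral_const_mul] at hstep1
  refine hstep1.trans ((mul_le_mul_of_nonneg_left hstep2 (sq_nonneg _)).trans ?_)
  refine PB2_num R K A (N : ℝ) (Real.log N) ε (M c : ℝ) ((∏ i ∈ univ.erase c, M i : ℕ) : ℝ) hn1 hL hε0 hR ?_ ?_ ?_ ?_ hMc
  · exact_mod_cast hM1 c
  · exact_mod_cast hM'1
  · have h1 : ((N ^ 3 : ℕ) : ℝ) ≤ ((2 ^ (R + 4) * ∏ i, M i : ℕ) : ℝ) := by exact_mod_cast hlow
    rw [← hprod] at h1
    rw [Nat.cast_mul, Nat.cast_mul, Nat.cast_pow, Nat.cast_pow] at h1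
    exact_mod_cast h1
  · have h1 : ((∏ i, M i : ℕ) : ℝ) ≤ ((8 * N ^ 3 : ℕ) : ℝ) := by exact_mod_cast hup
    rw [← hprod] at h1
    rw [Nat.cast_mul, Nat.cast_mul, Nat.cast_pow] at h1
    exact_mod_cast h1

end Pool.Agent.FJ
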