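import Pool.Agent.helper94.FJ.SpecP

/-!
# fj:PBX: the correlation of two windows
-/

set_option autoImplicit false

namespace Pool.Agent.FJ

open Finset ArithmeticFunction MeasureTheory
open Pool.Agent.CH (nit DPb)
open Pool.Agent.SK (tr0 Th muz sml bgf zN uu)
open Pool.Agent.helper85.BVP (tau)

private theorem PBX_tr (c z : ℝ) (hc : 0 ≤ c) : c * tr0 0 c z = max 0 (c - |z|) := by
  unfold tr0
  rw [sub_zero]
  rcases hc.eq_or_lt with h | h
  · rw [← h, zero_mul, zero_sub]
    exact (max_eq_left (neg_nonpos.2 (abs_nonneg z))).symm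
  · rw [mul_max_of_nonneg _ _ hc, mul_zero]
    congr 1
    field_simp

private theorem PBX_fun (a b y y' v : ℝ) : bxw a (y - v) * bxw b (y' - v) =
    (Set.Icc (max (y - a / 2) (y' - b / 2)) (min (y + a / 2) (y' + b / 2))).indicator (fun _ => (1 : ℝ)) v := by
  unfold bxw
  by_cases h1 : |y - v| ≤ a / 2
  · by_cases h2 : |y' - v| ≤ b / 2
    · rw [if_pos h1, if_pos h2, Set.indicator_of_mem, mul_one]
      rw [abs_le] at h1 h2
      rw [Set.mem_Icc, max_le_iff, le_min_iff]
      exact ⟨⟨by linarith, by linarith⟩, by linarith, by linarith⟩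
    · rw [if_pos h1, if_neg h2, Set.indicator_of_notMem, mul_zero]
      intro h
      rw [Set.mem_Icc, max_le_iff, le_min_iff] at h
      apply h2
      rw [abs_le]
      exact ⟨by linarith [h.2.2], by linarith [h.1.2]⟩
  · rw [if_neg h1, Set.indicator_of_notMem, zero_mul]
    intro h
    rw [Set.mem_Icc, max_le_iff, le_min_iff] at h
    apply h1
    rw [abs_le]
    exact ⟨by linarith [h.2.1], by linarith [h.1.1]⟩

private theorem PBX_id (a b y y' : ℝ) (ha : 0 < a) (hab : a ≤ b) :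
    max (min (y + a / 2) (y' + b / 2) - max (y - a / 2) (y' - b / 2)) 0 =
      max 0 ((a + b) / 2 - |y - y'|) - max 0 ((b - a) / 2 - |y - y'|) := by
  rcases abs_cases (y - y') with ⟨h1, h1'⟩ | ⟨h1, h1'⟩ <;>
  rcases min_cases (y + a / 2) (y' + b / 2) with ⟨h2, h2'⟩ | ⟨h2, h2'⟩ <;>
  rcases max_cases (y - a / 2) (y' - b / 2) with ⟨h3, h3'⟩ | ⟨h3, h3'⟩ <;>
  rcases max_cases (0 : ℝ) ((a + b) / 2 - |y - y'|) with ⟨h4, h4'⟩ | ⟨h4, h4'⟩ <;>
  rcases max_cases (0 : ℝ) ((b - a) / 2 - |y - y'|) with ⟨h5, h5'⟩ | ⟨h5, h5'⟩ <;>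
  rcases max_cases (min (y + a / 2) (y' + b / 2) - max (y - a / 2) (y' - b / 2)) (0 : ℝ) with ⟨h6, h6'⟩ | ⟨h6, h6'⟩ <;>
  linarith

theorem PBX : PBX_stmt := by
  intro a b y y' ha hab
  have hf : (fun v : ℝ => bxw a (y - v) * bxw b (y' - v)) =
      (Set.Icc (max (y - a / 2) (y' - b / 2)) (min (y + a / 2) (y' + b / 2))).indicator (fun _ => (1 : ℝ)) := by
    funext v
    exact PBX_fun a b y y' v
  rw [hf]
  constructor
  · rw [integrable_indicator_iff measurableSet_Icc]
    exact integrableOn_const (by rw [Real.volume_Icc]; exact ENNReal.ofReal_ne_top)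
  · rw [integral_indicator_const _ measurableSet_Icc, smul_eq_mul, mul_one, Measure.real, Real.volume_Icc,
      PBX_tr _ _ (by linarith), PBX_tr _ _ (by linarith), ← PBX_id a b y y' ha hab]
    rw [← ENNReal.toReal_ofReal (le_max_right _ _)]
    congr 1
    rcases le_total 0 (min (y + a / 2) (y' + b / 2) - max (y - a / 2) (y' - b / 2)) with h | h
    · rw [max_eq_left h]
    · rw [max_eq_right h, ENNReal.ofReal_zero, ENNReal.ofReal_of_nonpos h]

end Pool.Agent.FJ
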