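import Pool.Agent.helper94.FJ.SpecP

/-!
# fj:PCI: integers in windows
-/

set_option autoImplicit false

namespace Pool.Agent.FJ

open Finset ArithmeticFunction MeasureTheory
open Pool.Agent.CH (nit DPb)
open Pool.Agent.SK (tr0 Th muz sml bgf zN uu)
open Pool.Agent.helper85.BVP (tau)

private theorem PCI_sinh (c : ℝ) (h0 : 0 < c) (h1 : c ≤ 1) : |Real.exp (c / 2) - Real.exp (-(c / 2)) - c| ≤ c ^ 3 / 2 := by
  have ha : |c / 2| ≤ 1 := by
    rw [abs_le]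
    constructor <;> linarith
  have hb : |-(c / 2)| ≤ 1 := by
    rw [abs_neg]
    exact ha
  have e1 := Real.exp_bound ha (by norm_num : 0 < 3)
  have e2 := Real.exp_bound hb (by norm_num : 0 < 3)
  rw [abs_neg] at e2
  simp only [Finset.sum_range_succ, Finset.sum_range_zero, Nat.factorial] at e1 e2
  rw [abs_of_pos (by linarith : 0 < c / 2)] at e1 e2
  norm_num at e1 e2
  rw [abs_le] at e1 e2 ⊢
  have hc3 : 0 < c ^ 3 := by positivity
  constructor <;> nlinarith [e1.1, e1.2, e2.1, e2.2]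

/-- the count -/
private theorem PCI_cnt (N : ℕ) (hN : 1 ≤ N) (v c : ℝ) (hv : |v - 3 * Real.log N| ≤ 1) (h0 : 0 < c) (h1 : c ≤ 1) :
    |(∑ m ∈ Ioc (0 : ℕ) (64 * N ^ 3), bxw c (Real.log (m : ℝ) - v)) - (Real.exp (v + c / 2) - Real.exp (v - c / 2))| ≤ 1 := by
  have hn : (0 : ℝ) < (N : ℝ) := by exact_mod_cast hN
  have ha0 : 0 < Real.exp (v - c / 2) := Real.exp_pos _
  have hb0 : 0 < Real.exp (v + c / 2) := Real.exp_pos _
  have hab : Real.exp (v - c / 2) ≤ Real.exp (v + c / 2) := Real.exp_le_exp.2 (by linarith)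
  have hb64 : Real.exp (v + c / 2) ≤ 64 * (N : ℝ) ^ 3 := by
    have h2 : v + c / 2 ≤ 2 + 3 * Real.log N := by
      have := (abs_le.1 hv).2
      linarith
    have h3 : Real.exp (2 + 3 * Real.log N) = Real.exp 2 * (N : ℝ) ^ 3 := by
      rw [Real.exp_add]
      congr 1
      have h4 : 3 * Real.log (N : ℝ) = Real.log ((N : ℝ) ^ 3) := by
        rw [Real.log_pow]
        push_cast
        ring
      rw [h4, Real.exp_log (by positivity)]
    have h5 : Real.exp 2 ≤ 64 := by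
      have h6 : Real.exp 2 = Real.exp 1 * Real.exp 1 := by
        rw [← Real.exp_add]
        norm_num
      have h7 : Real.exp 1 ≤ 2.7182818286 := Real.exp_one_lt_d9.le
      rw [h6]
      nlinarith [Real.exp_pos 1]
    calc Real.exp (v + c / 2) ≤ Real.exp (2 + 3 * Real.log N) := Real.exp_le_exp.2 h2
      _ = Real.exp 2 * (N : ℝ) ^ 3 := h3
      _ ≤ 64 * (N : ℝ) ^ 3 := mul_le_mul_of_nonneg_right h5 (by positivity)
  have hset : (Ioc (0 : ℕ) (64 * N ^ 3)).filter (fun m : ℕ => |Real.log (m : ℝ) - v| ≤ c / 2) =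
      Icc ⌈Real.exp (v - c / 2)⌉₊ ⌊Real.exp (v + c / 2)⌋₊ := by
    ext m
    rw [mem_filter, mem_Ioc, mem_Icc, Nat.ceil_le, Nat.le_floor_iff hb0.le]
    constructor
    · rintro ⟨⟨hm1, hm2⟩, hm3⟩
      have hm0 : (0 : ℝ) < (m : ℝ) := by exact_mod_cast hm1
      rw [abs_le] at hm3
      constructor
      · rw [← Real.exp_log hm0]
        exact Real.exp_le_exp.2 (by linarith [hm3.1])
      · rw [← Real.exp_log hm0]
        exact Real.exp_le_exp.2 (by linarith [hm3.2])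
    · rintro ⟨hm1, hm2⟩
      have hm0 : (0 : ℝ) < (m : ℝ) := lt_of_lt_of_le ha0 hm1
      refine ⟨⟨by exact_mod_cast hm0, ?_⟩, ?_⟩
      · have h2 : (m : ℝ) ≤ ((64 * N ^ 3 : ℕ) : ℝ) := by
          push_cast
          exact hm2.trans hb64
        exact_mod_cast h2
      · have h2 : v - c / 2 ≤ Real.log m := by
          have := Real.log_le_log ha0 hm1
          rwa [Real.log_exp] at this
        have h3 : Real.log m ≤ v + c / 2 := by
          have := Real.log_le_log hm0 hm2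
          rwa [Real.log_exp] at this
        rw [abs_le]
        constructor <;> linarith
  have hsum : (∑ m ∈ Ioc (0 : ℕ) (64 * N ^ 3), bxw c (Real.log (m : ℝ) - v)) =
      ((⌊Real.exp (v + c / 2)⌋₊ + 1 - ⌈Real.exp (v - c / 2)⌉₊ : ℕ) : ℝ) := by
    unfold bxw
    rw [← Finset.sum_filter, hset, Finset.sum_const, nsmul_eq_mul, mul_one, Nat.card_Icc]
  rw [hsum]
  have f1 : (⌊Real.exp (v + c / 2)⌋₊ : ℝ) ≤ Real.exp (v + c / 2) := Nat.floor_le hb0.le
  have f2 : Real.exp (v + c / 2) < (⌊Real.exp (v + c / 2)⌋₊ : ℝ) + 1 := Nat.lt_floor_add_one _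
  have f3 : Real.exp (v - c / 2) ≤ (⌈Real.exp (v - c / 2)⌉₊ : ℝ) := Nat.le_ceil _
  have f4 : (⌈Real.exp (v - c / 2)⌉₊ : ℝ) < Real.exp (v - c / 2) + 1 := Nat.ceil_lt_add_one ha0.le
  have f5 : ⌈Real.exp (v - c / 2)⌉₊ ≤ ⌊Real.exp (v + c / 2)⌋₊ + 1 := by
    have h2 : (⌈Real.exp (v - c / 2)⌉₊ : ℝ) < ((⌊Real.exp (v + c / 2)⌋₊ + 2 : ℕ) : ℝ) := by
      push_cast
      linarith
    have h3 : ⌈Real.exp (v - c / 2)⌉₊ < ⌊Real.exp (v + c / 2)⌋₊ + 2 := by exact_mod_cast h2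
    omega
  rw [Nat.cast_sub f5, Nat.cast_add, Nat.cast_one, abs_le]
  constructor <;> linarith

theorem PCI : PCI_stmt := by
  refine ⟨1, fun N hN v δ δ' hv h0 h1 h2 => ?_⟩
  have hδ' : 0 < δ' := lt_of_lt_of_le h0 h1
  have c1 := PCI_cnt N hN v δ hv h0 (h1.trans h2)
  have c2 := PCI_cnt N hN v δ' hv hδ' h2
  have s1 := PCI_sinh δ h0 (h1.trans h2)
  have s2 := PCI_sinh δ' hδ' h2
  have hr0 : 0 ≤ δ / δ' := by positivity
  have hr1 : δ / δ' ≤ 1 := (div_le_one hδ').2 h1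
  have hrd : δ / δ' * δ' = δ := by field_simp
  have hev : 0 < Real.exp v := Real.exp_pos v
  have hsum : (∑ m ∈ Ioc (0 : ℕ) (64 * N ^ 3), kbw δ δ' (Real.log (m : ℝ) - v)) =
      (∑ m ∈ Ioc (0 : ℕ) (64 * N ^ 3), bxw δ (Real.log (m : ℝ) - v)) -
        δ / δ' * ∑ m ∈ Ioc (0 : ℕ) (64 * N ^ 3), bxw δ' (Real.log (m : ℝ) - v) := by
    unfold kbw
    rw [Finset.sum_sub_distrib, Finset.mul_sum]
  rw [hsum]
  set X := (∑ m ∈ Ioc (0 : ℕ) (64 * N ^ 3), bxw δ (Real.log (m : ℝ) - v)) with hX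
  set Y := (∑ m ∈ Ioc (0 : ℕ) (64 * N ^ 3), bxw δ' (Real.log (m : ℝ) - v)) with hY
  have hsplit : ∀ c : ℝ, Real.exp (v + c / 2) - Real.exp (v - c / 2) = Real.exp v * (Real.exp (c / 2) - Real.exp (-(c / 2))) := by
    intro c
    rw [show v - c / 2 = v + -(c / 2) by ring, Real.exp_add, Real.exp_add]
    ring
  rw [hsplit] at c1 c2
  have hid : X - δ / δ' * Y = (X - Real.exp v * (Real.exp (δ / 2) - Real.exp (-(δ / 2)))) -
      δ / δ' * (Y - Real.exp v * (Real.exp (δ' / 2) - Real.exp (-(δ' / 2)))) +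
      Real.exp v * ((Real.exp (δ / 2) - Real.exp (-(δ / 2)) - δ) - δ / δ' * (Real.exp (δ' / 2) - Real.exp (-(δ' / 2)) - δ')) := by
    have h3 : δ / δ' * (Real.exp (δ' / 2) - Real.exp (-(δ' / 2)) - δ') = δ / δ' * (Real.exp (δ' / 2) - Real.exp (-(δ' / 2))) - δ := by
      rw [mul_sub, hrd]
    rw [h3]
    ring
  rw [hid]
  have hA : |(X - Real.exp v * (Real.exp (δ / 2) - Real.exp (-(δ / 2)))) -
      δ / δ' * (Y - Real.exp v * (Real.exp (δ' / 2) - Real.exp (-(δ' / 2))))| ≤ 2 := by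
    refine (abs_sub _ _).trans ?_
    rw [abs_mul, abs_of_nonneg hr0]
    have h3 := mul_le_mul hr1 c2 (abs_nonneg _) zero_le_one
    linarith
  have hB : |Real.exp v * ((Real.exp (δ / 2) - Real.exp (-(δ / 2)) - δ) - δ / δ' * (Real.exp (δ' / 2) - Real.exp (-(δ' / 2)) - δ'))| ≤
      Real.exp v * δ * δ' ^ 2 := by
    rw [abs_mul, abs_of_pos hev, mul_assoc]
    apply mul_le_mul_of_nonneg_left _ hev.le
    refine (abs_sub _ _).trans ?_
    rw [abs_mul, abs_of_nonneg hr0]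
    have h3 := mul_le_mul_of_nonneg_left s2 hr0
    have h4 : δ / δ' * (δ' ^ 3 / 2) = δ * δ' ^ 2 / 2 := by
      calc δ / δ' * (δ' ^ 3 / 2) = (δ / δ' * δ') * δ' ^ 2 / 2 := by ring
        _ = δ * δ' ^ 2 / 2 := by rw [hrd]
    rw [h4] at h3
    have h5 : δ ^ 3 ≤ δ * δ' ^ 2 := by
      calc δ ^ 3 = δ * δ ^ 2 := by ring
        _ ≤ δ * δ' ^ 2 := mul_le_mul_of_nonneg_left (pow_le_pow_left₀ h0.le h1 2) h0.le
    linarith
  refine (abs_add_le _ _).trans ?_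
  linarith

end Pool.Agent.FJ
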