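import Pool.Agent.helper94.FJ.SpecP

/-!
# fj:PDI: type I sums over the windows
-/

set_option autoImplicit false

namespace Pool.Agent.FJ

open Finset ArithmeticFunction MeasureTheory
open Pool.Agent.CH (nit DPb)
open Pool.Agent.SK (tr0 Th muz sml bgf zN uu)
open Pool.Agent.helper85.BVP (tau)

/-- `kbw` vanishes away from `N³` -/
private theorem PDI_zero (N m : ℕ) (hN : 1 ≤ N) (hm : 1 ≤ m) (v δ δ' : ℝ) (hv : |v - 3 * Real.log N| ≤ 1) (h1 : δ ≤ δ') (h2 : δ' ≤ 1)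
    (hmm : 8 * m ≤ N ^ 3 ∨ 8 * N ^ 3 ≤ m) : kbw δ δ' (Real.log m - v) = 0 := by
  have hn0 : (0 : ℝ) < (N : ℝ) := by exact_mod_cast hN
  have hm0 : (0 : ℝ) < (m : ℝ) := by exact_mod_cast hm
  have hl8 : 3 / 2 < Real.log 8 := by
    have h3 : (8 : ℝ) = 2 ^ 3 := by norm_num
    rw [h3, Real.log_pow]
    push_cast
    linarith [Real.log_two_gt_d9]
  have hN3 : Real.log ((N : ℝ) ^ 3) = 3 * Real.log N := by
    rw [Real.log_pow]
    push_cast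
    ring
  have hfar : 1 / 2 < |Real.log m - v| := by
    rcases hmm with h | h
    · have h3 : 8 * (m : ℝ) ≤ (N : ℝ) ^ 3 := by exact_mod_cast h
      have h4 := Real.log_le_log (by positivity) h3
      rw [Real.log_mul (by norm_num) hm0.ne', hN3] at h4
      have h5 := (abs_le.1 hv).1
      rw [lt_abs]
      right
      linarith
    · have h3 : 8 * (N : ℝ) ^ 3 ≤ (m : ℝ) := by exact_mod_cast h
      have h4 := Real.log_le_log (by positivity) h3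
      rw [Real.log_mul (by norm_num) (by positivity), hN3] at h4
      have h5 := (abs_le.1 hv).2
      rw [lt_abs]
      left
      linarith
  unfold kbw bxw
  rw [if_neg (by linarith), if_neg (by linarith)]
  ring

/-- the blocks -/
private def PDI_Bl (N K : ℕ) : Finset (ℕ × ℕ) :=
  ((range K) ×ˢ (range K)).filter fun b => N ^ 3 ≤ 32 * 2 ^ (b.2 + b.1) ∧ 2 ^ (b.2 + b.1) ≤ 8 * N ^ 3

/-- the pairs -/
private def PDI_P (M : ℕ) : Finset (ℕ × ℕ) := ((Ioc 0 M) ×ˢ (Ioc 0 M)).filter fun p => p.1 * p.2 ≤ M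

private def PDI_blk (b : ℕ × ℕ) : Finset (ℕ × ℕ) := (Ico (2 ^ b.1) (2 * 2 ^ b.1)) ×ˢ (Ico (2 ^ b.2) (2 * 2 ^ b.2))

/-- sum over the divisor pairs -/
private theorem PDI_div (M : ℕ) (F : ℕ → ℕ → ℂ) : ∑ m ∈ Ioc 0 M, ∑ p ∈ m.divisorsAntidiagonal, F p.1 p.2 = ∑ p ∈ PDI_P M, F p.1 p.2 := by
  have h := Finset.sum_fiberwise_of_maps_to (s := PDI_P M) (t := Ioc 0 M) (g := fun p : ℕ × ℕ => p.1 * p.2) (fun p hp => by
    unfold PDI_P at hp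
    rw [mem_filter, mem_product, mem_Ioc, mem_Ioc] at hp
    rw [mem_Ioc]
    exact ⟨Nat.mul_pos hp.1.1.1 hp.1.2.1, hp.2⟩) (fun p => F p.1 p.2)
  rw [← h]
  refine Finset.sum_congr rfl fun m hm => ?_
  rw [mem_Ioc] at hm
  refine Finset.sum_congr ?_ fun _ _ => rfl
  ext p
  unfold PDI_P
  rw [Nat.mem_divisorsAntidiagonal, mem_filter, mem_filter, mem_product, mem_Ioc, mem_Ioc]
  constructor
  · rintro ⟨h1, h2⟩
    have h3 : 0 < p.1 := Nat.pos_of_ne_zero fun h0 => by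
      rw [h0, zero_mul] at h1
      omega
    have h4 : 0 < p.2 := Nat.pos_of_ne_zero fun h0 => by
      rw [h0, mul_zero] at h1
      omega
    have h5 : p.1 ≤ p.1 * p.2 := Nat.le_mul_of_pos_right _ h4
    have h6 : p.2 ≤ p.1 * p.2 := Nat.le_mul_of_pos_left _ h3
    exact ⟨⟨⟨⟨h3, by omega⟩, h4, by omega⟩, by omega⟩, h1⟩
  · rintro ⟨⟨_, h3⟩, h2⟩
    exact ⟨h2, by omega⟩

/-- sum over the blocks -/
private theorem PDI_sum (N K : ℕ) (hN : 1 ≤ N) (hK : ∀ f : ℕ, 2 ^ f ≤ 8 * N ^ 3 → f < K) (F : ℕ → ℕ → ℂ)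
    (hF : ∀ d n : ℕ, 1 ≤ d → 1 ≤ n → (8 * (d * n) ≤ N ^ 3 ∨ 8 * N ^ 3 ≤ d * n) → F d n = 0) :
    ∑ p ∈ PDI_P (64 * N ^ 3), F p.1 p.2 = ∑ b ∈ PDI_Bl N K, ∑ p ∈ PDI_blk b, F p.1 p.2 := by
  have hpos : 0 < N ^ 3 := Nat.pow_pos hN
  set S' := (PDI_P (64 * N ^ 3)).filter fun p => (Nat.log 2 p.1, Nat.log 2 p.2) ∈ PDI_Bl N K with hS'
  have h1 : ∑ p ∈ PDI_P (64 * N ^ 3), F p.1 p.2 = ∑ p ∈ S', F p.1 p.2 := by
    rw [hS']
    symm
    apply Finset.sum_subset (filter_subset _ _)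
    intro p hp hp'
    have hp0 := hp
    unfold PDI_P at hp
    rw [mem_filter, mem_product, mem_Ioc, mem_Ioc] at hp
    apply hF _ _ hp.1.1.1 hp.1.2.1
    by_contra hcon
    push Not at hcon
    apply hp'
    rw [mem_filter]
    refine ⟨hp0, ?_⟩
    have a1 : 2 ^ Nat.log 2 p.1 ≤ p.1 := Nat.pow_log_le_self 2 (by omega)
    have a2 : p.1 < 2 ^ (Nat.log 2 p.1 + 1) := Nat.lt_pow_succ_log_self (by norm_num) p.1
    have b1 : 2 ^ Nat.log 2 p.2 ≤ p.2 := Nat.pow_log_le_self 2 (by omega)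
    have b2 : p.2 < 2 ^ (Nat.log 2 p.2 + 1) := Nat.lt_pow_succ_log_self (by norm_num) p.2
    have c1 : 2 ^ (Nat.log 2 p.2 + Nat.log 2 p.1) ≤ p.1 * p.2 := by
      rw [pow_add, mul_comm]
      exact Nat.mul_le_mul a1 b1
    have c2 : p.1 * p.2 ≤ 4 * 2 ^ (Nat.log 2 p.2 + Nat.log 2 p.1) := by
      calc p.1 * p.2 ≤ 2 ^ (Nat.log 2 p.1 + 1) * 2 ^ (Nat.log 2 p.2 + 1) := Nat.mul_le_mul a2.le b2.le
        _ = 4 * 2 ^ (Nat.log 2 p.2 + Nat.log 2 p.1) := by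
            rw [pow_succ, pow_succ, pow_add]
            ring
    have c3 : 2 ^ (Nat.log 2 p.2 + Nat.log 2 p.1) ≤ 8 * N ^ 3 := by omega
    have d1 : 2 ^ Nat.log 2 p.1 ≤ 8 * N ^ 3 := (Nat.pow_le_pow_right (by norm_num) (by omega)).trans c3
    have d2 : 2 ^ Nat.log 2 p.2 ≤ 8 * N ^ 3 := (Nat.pow_le_pow_right (by norm_num) (by omega)).trans c3
    unfold PDI_Bl
    rw [mem_filter, mem_product, mem_range, mem_range]
    refine ⟨⟨hK _ d1, hK _ d2⟩, ?_, c3⟩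
    show N ^ 3 ≤ 32 * 2 ^ (Nat.log 2 p.2 + Nat.log 2 p.1)
    omega
  rw [h1, ← Finset.sum_fiberwise_of_maps_to (s := S') (t := PDI_Bl N K) (g := fun p : ℕ × ℕ => (Nat.log 2 p.1, Nat.log 2 p.2)) (fun p hp => by
    rw [hS', mem_filter] at hp
    exact hp.2)]
  refine Finset.sum_congr rfl fun b hb => Finset.sum_congr ?_ fun _ _ => rfl
  have hb' := hb
  unfold PDI_Bl at hb'
  rw [mem_filter] at hb'
  ext p
  unfold PDI_blk
  rw [mem_filter, hS', mem_filter, mem_product, mem_Ico, mem_Ico]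
  constructor
  · rintro ⟨⟨h2, _⟩, h3⟩
    unfold PDI_P at h2
    rw [mem_filter, mem_product, mem_Ioc, mem_Ioc] at h2
    have a1 : 2 ^ Nat.log 2 p.1 ≤ p.1 := Nat.pow_log_le_self 2 (by omega)
    have a2 : p.1 < 2 ^ (Nat.log 2 p.1 + 1) := Nat.lt_pow_succ_log_self (by norm_num) p.1
    have b1 : 2 ^ Nat.log 2 p.2 ≤ p.2 := Nat.pow_log_le_self 2 (by omega)
    have b2 : p.2 < 2 ^ (Nat.log 2 p.2 + 1) := Nat.lt_pow_succ_log_self (by norm_num) p.2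
    rw [← h3]
    rw [pow_succ, mul_comm] at a2 b2
    exact ⟨⟨a1, a2⟩, b1, b2⟩
  · rintro ⟨⟨a1, a2⟩, b1, b2⟩
    have l1 : Nat.log 2 p.1 = b.1 := (Nat.log_eq_iff (Or.inr ⟨by norm_num, by
      have := Nat.one_le_two_pow (n := b.1)
      omega⟩)).2 ⟨a1, by rw [pow_succ, mul_comm]; exact a2⟩
    have l2 : Nat.log 2 p.2 = b.2 := (Nat.log_eq_iff (Or.inr ⟨by norm_num, by
      have := Nat.one_le_two_pow (n := b.2)
      omega⟩)).2 ⟨b1, by rw [pow_succ, mul_comm]; exact b2⟩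
    have hpq : p.1 * p.2 ≤ 64 * N ^ 3 := by
      calc p.1 * p.2 ≤ (2 * 2 ^ b.1) * (2 * 2 ^ b.2) := Nat.mul_le_mul a2.le b2.le
        _ = 4 * 2 ^ (b.2 + b.1) := by
            rw [pow_add]
            ring
        _ ≤ 64 * N ^ 3 := by
            have := hb'.2.2
            omega
    have p1 : 0 < p.1 := lt_of_lt_of_le (Nat.pow_pos (by norm_num)) a1
    have p2 : 0 < p.2 := lt_of_lt_of_le (Nat.pow_pos (by norm_num)) b1
    have q1 : p.1 ≤ p.1 * p.2 := Nat.le_mul_of_pos_right _ p2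
    have q2 : p.2 ≤ p.1 * p.2 := Nat.le_mul_of_pos_left _ p1
    refine ⟨⟨?_, ?_⟩, ?_⟩
    · unfold PDI_P
      rw [mem_filter, mem_product, mem_Ioc, mem_Ioc]
      exact ⟨⟨⟨p1, by omega⟩, p2, by omega⟩, hpq⟩
    · rw [l1, l2]
      exact hb
    · rw [l1, l2]

private theorem PDI_cs {ι : Type} (S : Finset ι) (X : ι → ℂ) : ‖∑ b ∈ S, X b‖ ^ 2 ≤ S.card * ∑ b ∈ S, ‖X b‖ ^ 2 := by
  have h1 : ‖∑ b ∈ S, X b‖ ^ 2 ≤ (∑ b ∈ S, ‖X b‖) ^ 2 := pow_le_pow_left₀ (norm_nonneg _) (norm_sum_le _ _) 2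
  exact h1.trans sq_sum_le_card_mul_sum_sq

private theorem PDI_log (N f : ℕ) (hN : 1 ≤ N) (hL : 36 ≤ Real.log N) (hf : 2 ^ f ≤ 8 * N ^ 3) : (f : ℝ) + 1 ≤ 6 * Real.log N := by
  have hn0 : (0 : ℝ) < (N : ℝ) := by exact_mod_cast hN
  have h1 : (2 : ℝ) ^ f ≤ 8 * (N : ℝ) ^ 3 := by exact_mod_cast hf
  have h2 := Real.log_le_log (by positivity) h1
  rw [Real.log_pow, Real.log_mul (by norm_num) (by positivity), Real.log_pow, show (8 : ℝ) = 2 ^ 3 by norm_num, Real.log_pow] at h2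
  push_cast at h2
  have h3 := Real.log_two_gt_d9
  have h4 := Real.log_two_lt_d9
  have h5 : (f : ℝ) * 0.69 ≤ f * Real.log 2 := mul_le_mul_of_nonneg_left (by linarith) (Nat.cast_nonneg _)
  linarith

theorem PDI (hPFB : PFB_stmt) (hPB1 : PB1_stmt) : PDI_stmt := by
  intro ε hε0 hε1 A Bq K
  obtain ⟨B₀, hB₀⟩ := hPB1 ε hε0 hε1 (A + 6) Bq K
  refine ⟨B₀, fun B hB => ?_⟩
  obtain ⟨N₁, hN₁⟩ := hB₀ B hB
  obtain ⟨N₂, hN₂⟩ : ∃ N₀ : ℕ, ∀ N : ℕ, N₀ ≤ N → 36 ≤ Real.log (N : ℝ) :=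
    Filter.eventually_atTop.1 ((Real.tendsto_log_atTop.comp tendsto_natCast_atTop_atTop).eventually_ge_atTop 36)
  refine ⟨max N₁ (max N₂ 1), fun N hN δ hδ hδ' q hq1 hqL χ h hh E hE => ?_⟩
  have g1 : N₁ ≤ N := (le_max_left _ _).trans hN
  have g2 : N₂ ≤ N := (le_max_left _ _).trans ((le_max_right _ _).trans hN)
  have g3 : 1 ≤ N := (le_max_right _ _).trans ((le_max_right _ _).trans hN)
  have hLL := hN₂ N g2
  have hn1 : (1 : ℝ) ≤ (N : ℝ) := by exact_mod_cast g3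
  have hn0 : (0 : ℝ) < (N : ℝ) := by linarith
  have hL0 : (0 : ℝ) < Real.log N := by linarith
  have hδ0 : (0 : ℝ) < δ := lt_of_lt_of_le (Real.rpow_pos_of_pos hn0 _) hδ
  have hLB : (0 : ℝ) < Real.log N ^ B := pow_pos hL0 _
  have hδ'1 : 1 / Real.log N ^ B ≤ 1 := by
    rw [div_le_one hLB]
    exact one_le_pow₀ (by linarith)
  have hPB := hN₁ N g1 δ hδ hδ' q hq1 hqL χ h hh E hE
  set X := XPc ε N with hX
  set Kk := ⌊6 * Real.log N⌋₊ with hKk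
  have hK : ∀ f : ℕ, 2 ^ f ≤ 8 * N ^ 3 → f < Kk := by
    intro f hf
    have h1 := PDI_log N f g3 hLL hf
    have h2 : f + 1 ≤ Kk := Nat.le_floor (by push_cast; exact h1)
    omega
  -- coefficient of a pair
  set c : ℕ × ℕ → ℂ := fun p => (((E p.1 : ℝ) : ℂ) * χ p.1) * (((bgf X h p.2 : ℝ) : ℂ) * χ p.2) with hc
  have hpt : ∀ v : ℝ, |v - 3 * Real.log N| ≤ 1 →
      ∑ m ∈ Ioc 0 (64 * N ^ 3), (((E * bgf X h) m : ℝ) : ℂ) * χ m * ((kbw δ (1 / Real.log N ^ B) (Real.log m - v) : ℝ) : ℂ) =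
      ∑ b ∈ PDI_Bl N Kk, ∑ p ∈ PDI_blk b, c p * ((kbw δ (1 / Real.log N ^ B) (Real.log ((p.1 * p.2 : ℕ) : ℝ) - v) : ℝ) : ℂ) := by
    intro v hv
    have h1 := PDI_sum N Kk g3 hK (fun d n => (((E d : ℝ) : ℂ) * χ d) * (((bgf X h n : ℝ) : ℂ) * χ n) *
      ((kbw δ (1 / Real.log N ^ B) (Real.log ((d * n : ℕ) : ℝ) - v) : ℝ) : ℂ)) (fun d n hd hn hdn => by
        have h2 := PDI_zero N (d * n) g3 (Nat.mul_pos hd hn) v δ (1 / Real.log N ^ B) hv hδ' hδ'1 hdn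
        show _ * _ = _
        rw [h2, Complex.ofReal_zero, mul_zero])
    have h2 := PDI_div (64 * N ^ 3) (fun d n => (((E d : ℝ) : ℂ) * χ d) * (((bgf X h n : ℝ) : ℂ) * χ n) *
      ((kbw δ (1 / Real.log N ^ B) (Real.log ((d * n : ℕ) : ℝ) - v) : ℝ) : ℂ))
    refine Eq.trans ?_ (h2.trans h1)
    refine Finset.sum_congr rfl fun m _ => ?_
    rw [ArithmeticFunction.mul_apply, Complex.ofReal_sum, Finset.sum_mul, Finset.sum_mul]
    refine Finset.sum_congr rfl fun p hp => ?_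
    rw [Nat.mem_divisorsAntidiagonal] at hp
    show _ = (((E p.1 : ℝ) : ℂ) * χ p.1) * (((bgf X h p.2 : ℝ) : ℂ) * χ p.2) *
      ((kbw δ (1 / Real.log N ^ B) (Real.log ((p.1 * p.2 : ℕ) : ℝ) - v) : ℝ) : ℂ)
    rw [hp.1, ← hp.1]
    push_cast
    rw [map_mul]
    ring
  -- one block
  have hblk : ∀ b ∈ PDI_Bl N Kk,
      Integrable (fun v : ℝ => ‖∑ p ∈ PDI_blk b, c p * ((kbw δ (1 / Real.log N ^ B) (Real.log ((p.1 * p.2 : ℕ) : ℝ) - v) : ℝ) : ℂ)‖ ^ 2) ∧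
      ∫ v : ℝ, ‖∑ p ∈ PDI_blk b, c p * ((kbw δ (1 / Real.log N ^ B) (Real.log ((p.1 * p.2 : ℕ) : ℝ) - v) : ℝ) : ℂ)‖ ^ 2 ≤
        δ ^ 2 * (N : ℝ) ^ 6 / Real.log N ^ (A + 6) := by
    intro b hb
    have hb' := hb
    unfold PDI_Bl at hb'
    rw [mem_filter] at hb'
    obtain ⟨p1, p2, p3⟩ := hPFB δ (1 / Real.log N ^ B) hδ0 hδ' hδ'1 (ℕ × ℕ) (PDI_blk b) (fun p => p.1 * p.2) c (fun p hp => by
      unfold PDI_blk at hp
      rw [mem_product, mem_Ico, mem_Ico] at hp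
      exact Nat.mul_pos (lt_of_lt_of_le (Nat.pow_pos (by norm_num)) hp.1.1) (lt_of_lt_of_le (Nat.pow_pos (by norm_num)) hp.2.1))
    refine ⟨p1, p3.trans ?_⟩
    have h2 := hPB b.2 b.1 hb'.2.1 hb'.2.2
    refine le_trans (le_of_eq ?_) h2
    apply integral_congr_ae
    refine Filter.Eventually.of_forall fun t => ?_
    show _ * _ = _ * _
    congr 3
    unfold DPb PDI_blk
    rw [Finset.sum_mul_sum, ← Finset.sum_product']
    refine Finset.sum_congr rfl fun p hp => ?_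
    rw [mem_product, mem_Ico, mem_Ico] at hp
    have hd0 : (0 : ℝ) < (p.1 : ℝ) := by
      have : 0 < p.1 := lt_of_lt_of_le (Nat.pow_pos (by norm_num)) hp.1.1
      exact_mod_cast this
    have he0 : (0 : ℝ) < (p.2 : ℝ) := by
      have : 0 < p.2 := lt_of_lt_of_le (Nat.pow_pos (by norm_num)) hp.2.1
      exact_mod_cast this
    have h3 : nit t ((p.1 * p.2 : ℕ) : ℝ) = nit t (p.1 : ℝ) * nit t (p.2 : ℝ) := by
      unfold nit
      rw [← Complex.exp_add]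
      congr 1
      rw [Nat.cast_mul, Real.log_mul hd0.ne' he0.ne']
      push_cast
      ring
    show c p * nit t ((p.1 * p.2 : ℕ) : ℝ) = _
    rw [h3, hc]
    ring
  -- assembly
  have hle : 3 * Real.log N - 1 ≤ 3 * Real.log N + 1 := by linarith
  have hstep : ∫ v in (3 * Real.log N - 1)..(3 * Real.log N + 1), ‖∑ m ∈ Ioc 0 (64 * N ^ 3),
      (((E * bgf X h) m : ℝ) : ℂ) * χ m * ((kbw δ (1 / Real.log N ^ B) (Real.log m - v) : ℝ) : ℂ)‖ ^ 2 ≤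
      ∫ v : ℝ, ((PDI_Bl N Kk).card : ℝ) * ∑ b ∈ PDI_Bl N Kk,
        ‖∑ p ∈ PDI_blk b, c p * ((kbw δ (1 / Real.log N ^ B) (Real.log ((p.1 * p.2 : ℕ) : ℝ) - v) : ℝ) : ℂ)‖ ^ 2 := by
    have hint : Integrable (fun v : ℝ => ((PDI_Bl N Kk).card : ℝ) * ∑ b ∈ PDI_Bl N Kk,
        ‖∑ p ∈ PDI_blk b, c p * ((kbw δ (1 / Real.log N ^ B) (Real.log ((p.1 * p.2 : ℕ) : ℝ) - v) : ℝ) : ℂ)‖ ^ 2) :=
      (integrable_finsetSum _ fun b hb => (hblk b hb).1).const_mul _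
    rw [intervalIntegral.integral_of_le hle]
    calc ∫ v in Set.Ioc (3 * Real.log N - 1) (3 * Real.log N + 1), ‖∑ m ∈ Ioc 0 (64 * N ^ 3),
          (((E * bgf X h) m : ℝ) : ℂ) * χ m * ((kbw δ (1 / Real.log N ^ B) (Real.log m - v) : ℝ) : ℂ)‖ ^ 2
        ≤ ∫ v in Set.Ioc (3 * Real.log N - 1) (3 * Real.log N + 1), ((PDI_Bl N Kk).card : ℝ) * ∑ b ∈ PDI_Bl N Kk,
          ‖∑ p ∈ PDI_blk b, c p * ((kbw δ (1 / Real.log N ^ B) (Real.log ((p.1 * p.2 : ℕ) : ℝ) - v) : ℝ) : ℂ)‖ ^ 2 := by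
          apply integral_mono_of_nonneg (Filter.Eventually.of_forall fun v => sq_nonneg _) hint.integrableOn
          filter_upwards [ae_restrict_mem measurableSet_Ioc] with v hv
          rw [hpt v (by rw [abs_le]; constructor <;> linarith [hv.1, hv.2])]
          exact PDI_cs _ _
      _ ≤ _ := setIntegral_le_integral hint (Filter.Eventually.of_forall fun v =>
          mul_nonneg (Nat.cast_nonneg _) (Finset.sum_nonneg fun b _ => sq_nonneg _))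
  refine hstep.trans ?_
  rw [integral_const_mul, integral_finsetSum _ fun b hb => (hblk b hb).1]
  have hsum : ∑ b ∈ PDI_Bl N Kk, ∫ v : ℝ, ‖∑ p ∈ PDI_blk b, c p *
      ((kbw δ (1 / Real.log N ^ B) (Real.log ((p.1 * p.2 : ℕ) : ℝ) - v) : ℝ) : ℂ)‖ ^ 2 ≤
      (PDI_Bl N Kk).card * (δ ^ 2 * (N : ℝ) ^ 6 / Real.log N ^ (A + 6)) := by
    rw [← nsmul_eq_mul]
    exact Finset.sum_le_card_nsmul _ _ _ fun b hb => (hblk b hb).2
  have hcard : ((PDI_Bl N Kk).card : ℝ) ≤ (6 * Real.log N) ^ 2 := by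
    have h1 : (PDI_Bl N Kk).card ≤ Kk * Kk := by
      unfold PDI_Bl
      refine (card_filter_le _ _).trans ?_
      rw [card_product, card_range]
    have h2 : (Kk : ℝ) ≤ 6 * Real.log N := Nat.floor_le (by positivity)
    calc ((PDI_Bl N Kk).card : ℝ) ≤ ((Kk * Kk : ℕ) : ℝ) := by exact_mod_cast h1
      _ = (Kk : ℝ) ^ 2 := by push_cast; ring
      _ ≤ (6 * Real.log N) ^ 2 := pow_le_pow_left₀ (Nat.cast_nonneg _) h2 2
  have hW0 : 0 ≤ δ ^ 2 * (N : ℝ) ^ 6 / Real.log N ^ (A + 6) := by positivity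
  calc ((PDI_Bl N Kk).card : ℝ) * ∑ b ∈ PDI_Bl N Kk, ∫ v : ℝ, ‖∑ p ∈ PDI_blk b, c p *
        ((kbw δ (1 / Real.log N ^ B) (Real.log ((p.1 * p.2 : ℕ) : ℝ) - v) : ℝ) : ℂ)‖ ^ 2
      ≤ ((PDI_Bl N Kk).card : ℝ) * ((PDI_Bl N Kk).card * (δ ^ 2 * (N : ℝ) ^ 6 / Real.log N ^ (A + 6))) :=
        mul_le_mul_of_nonneg_left hsum (Nat.cast_nonneg _)
    _ = ((PDI_Bl N Kk).card : ℝ) ^ 2 * (δ ^ 2 * (N : ℝ) ^ 6 / Real.log N ^ (A + 6)) := by ring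
    _ ≤ ((6 * Real.log N) ^ 2) ^ 2 * (δ ^ 2 * (N : ℝ) ^ 6 / Real.log N ^ (A + 6)) :=
        mul_le_mul_of_nonneg_right (pow_le_pow_left₀ (Nat.cast_nonneg _) hcard 2) hW0
    _ = 1296 * (δ ^ 2 * (N : ℝ) ^ 6) / (Real.log N ^ 2 * Real.log N ^ A) := by
        rw [pow_add]
        field_simp
        ring
    _ ≤ δ ^ 2 * (N : ℝ) ^ 6 / Real.log N ^ A := by
        rw [div_le_div_iff₀ (by positivity) (by positivity)]
        have h1 : (1296 : ℝ) ≤ Real.log N ^ 2 := by nlinarith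
        calc 1296 * (δ ^ 2 * (N : ℝ) ^ 6) * Real.log N ^ A = (δ ^ 2 * (N : ℝ) ^ 6 * Real.log N ^ A) * 1296 := by ring
          _ ≤ (δ ^ 2 * (N : ℝ) ^ 6 * Real.log N ^ A) * Real.log N ^ 2 := mul_le_mul_of_nonneg_left h1 (by positivity)
          _ = δ ^ 2 * (N : ℝ) ^ 6 * (Real.log N ^ 2 * Real.log N ^ A) := by ring

end Pool.Agent.FJ
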