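import Pool.Agent.helper94.FJ.SpecP

/-!
# fj:PFB: Parseval for the windows
-/

set_option autoImplicit false

namespace Pool.Agent.FJ

open Finset ArithmeticFunction MeasureTheory
open Pool.Agent.CH (nit DPb)
open Pool.Agent.SK (tr0 Th muz sml bgf zN uu)
open Pool.Agent.helper85.BVP (tau)

private theorem PFB_E (hPTI : PTI_stmt) (c : ℝ) (hc : 0 ≤ c) :
    (∀ t : ℝ, t ≠ 0 → (c : ℂ) * Th c t = ((2 * (1 - Real.cos (c * t)) / t ^ 2 : ℝ) : ℂ)) ∧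
    Integrable (fun t : ℝ => (c : ℂ) * Th c t) ∧ ∀ z : ℝ, ((c * tr0 0 c z : ℝ) : ℂ) =
      1 / (2 * Real.pi) * ∫ t : ℝ, (c : ℂ) * Th c t * Complex.exp (((t * z : ℝ) : ℂ) * Complex.I) := by
  rcases hc.eq_or_lt with h | h
  · subst h
    refine ⟨fun t _ => ?_, ?_, fun z => ?_⟩
    · simp
    · simp
    · simp
  · obtain ⟨h1, h2, h3⟩ := hPTI c h
    refine ⟨fun t ht => ?_, h2.const_mul _, fun z => ?_⟩
    · rw [h1 t ht, ← Complex.ofReal_mul]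
      congr 1
      field_simp
    · rw [Complex.ofReal_mul, h3 z]
      simp_rw [mul_assoc]
      rw [integral_const_mul]
      ring

private theorem PFB_bdd (k g : ℝ → ℂ) (C : ℝ) (hk : Integrable k) (hg : Continuous g) (hb : ∀ t, ‖g t‖ ≤ C) :
    Integrable (fun t => k t * g t) := by
  refine Integrable.mono' (hk.norm.mul_const C) (hk.aestronglyMeasurable.mul hg.aestronglyMeasurable)
    (Filter.Eventually.of_forall fun t => ?_)
  rw [norm_mul]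
  exact mul_le_mul_of_nonneg_left (hb t) (norm_nonneg _)

private theorem PFB_lin4 (f1 f2 f3 f4 : ℝ → ℝ) (r s : ℝ) (h1 : Integrable f1) (h2 : Integrable f2) (h3 : Integrable f3) (h4 : Integrable f4) :
    ∫ v : ℝ, ((f1 v - r * f2 v) - r * f3 v) + s * f4 v = (∫ v, f1 v) - r * (∫ v, f2 v) - r * (∫ v, f3 v) + s * ∫ v, f4 v := by
  have e1 : ∫ v : ℝ, ((f1 v - r * f2 v) - r * f3 v) + s * f4 v = (∫ v : ℝ, (f1 v - r * f2 v) - r * f3 v) + ∫ v : ℝ, s * f4 v :=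
    integral_add ((h1.sub (h2.const_mul _)).sub (h3.const_mul _)) (h4.const_mul _)
  have e2 : ∫ v : ℝ, (f1 v - r * f2 v) - r * f3 v = (∫ v : ℝ, f1 v - r * f2 v) - ∫ v : ℝ, r * f3 v :=
    integral_sub (h1.sub (h2.const_mul _)) (h3.const_mul _)
  have e3 : ∫ v : ℝ, f1 v - r * f2 v = (∫ v : ℝ, f1 v) - ∫ v : ℝ, r * f2 v := integral_sub h1 (h2.const_mul _)
  rw [e1, e2, e3, integral_const_mul, integral_const_mul, integral_const_mul]

private theorem PFB_lin4c (f1 f2 f3 f4 : ℝ → ℂ) (r s : ℂ) (h1 : Integrable f1) (h2 : Integrable f2) (h3 : Integrable f3) (h4 : Integrable f4) :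
    ∫ v : ℝ, (f1 v - r * (f2 v - f3 v)) + s * f4 v = (∫ v, f1 v) - r * ((∫ v, f2 v) - (∫ v, f3 v)) + s * ∫ v, f4 v := by
  have e1 : ∫ v : ℝ, (f1 v - r * (f2 v - f3 v)) + s * f4 v = (∫ v : ℝ, f1 v - r * (f2 v - f3 v)) + ∫ v : ℝ, s * f4 v :=
    integral_add (h1.sub ((h2.sub h3).const_mul _)) (h4.const_mul _)
  have e2 : ∫ v : ℝ, f1 v - r * (f2 v - f3 v) = (∫ v : ℝ, f1 v) - ∫ v : ℝ, r * (f2 v - f3 v) :=
    integral_sub h1 ((h2.sub h3).const_mul _)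
  have e3 : ∫ v : ℝ, f2 v - f3 v = (∫ v : ℝ, f2 v) - ∫ v : ℝ, f3 v := integral_sub h2 h3
  rw [e1, e2, integral_const_mul, e3, integral_const_mul]

private theorem PFB_even (c y y' : ℝ) : tr0 0 c (y' - y) = tr0 0 c (y - y') := by
  unfold tr0
  rw [sub_zero, sub_zero, abs_sub_comm]

/-- the correlation of `kbw` -/
private theorem PFB_corr (hPBX : PBX_stmt) (δ δ' y y' : ℝ) (h0 : 0 < δ) (h1 : δ ≤ δ') :
    Integrable (fun v : ℝ => kbw δ δ' (y - v) * kbw δ δ' (y' - v)) ∧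
    ∫ v : ℝ, kbw δ δ' (y - v) * kbw δ δ' (y' - v) =
      δ * tr0 0 δ (y - y') - 2 * (δ / δ') * ((δ + δ') / 2 * tr0 0 ((δ + δ') / 2) (y - y') -
        (δ' - δ) / 2 * tr0 0 ((δ' - δ) / 2) (y - y')) + (δ / δ') ^ 2 * (δ' * tr0 0 δ' (y - y')) := by
  have hδ' : 0 < δ' := lt_of_lt_of_le h0 h1
  obtain ⟨a1, a2⟩ := hPBX δ δ y y' h0 le_rfl
  obtain ⟨b1, b2⟩ := hPBX δ δ' y y' h0 h1
  obtain ⟨c1, c2⟩ := hPBX δ δ' y' y h0 h1
  obtain ⟨d1, d2⟩ := hPBX δ' δ' y y' hδ' le_rfl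
  rw [show (δ + δ) / 2 = δ by ring, show (δ - δ) / 2 = 0 by ring, zero_mul, sub_zero] at a2
  rw [show (δ' + δ') / 2 = δ' by ring, show (δ' - δ') / 2 = 0 by ring, zero_mul, sub_zero] at d2
  rw [PFB_even ((δ + δ') / 2), PFB_even ((δ' - δ) / 2)] at c2
  have he : (fun v : ℝ => kbw δ δ' (y - v) * kbw δ δ' (y' - v)) = fun v : ℝ =>
      ((bxw δ (y - v) * bxw δ (y' - v) - δ / δ' * (bxw δ (y - v) * bxw δ' (y' - v))) -
        δ / δ' * (bxw δ (y' - v) * bxw δ' (y - v))) + (δ / δ') ^ 2 * (bxw δ' (y - v) * bxw δ' (y' - v)) := by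
    funext v
    unfold kbw
    ring
  rw [he]
  refine ⟨((a1.sub (b1.const_mul _)).sub (c1.const_mul _)).add (d1.const_mul _), ?_⟩
  rw [PFB_lin4 (fun v => bxw δ (y - v) * bxw δ (y' - v)) (fun v => bxw δ (y - v) * bxw δ' (y' - v))
    (fun v => bxw δ (y' - v) * bxw δ' (y - v)) (fun v => bxw δ' (y - v) * bxw δ' (y' - v)) _ _ a1 b1 c1 d1, a2, b2, c2, d2]
  ring

/-- the transform -/
private noncomputable def PFB_kh (δ δ' t : ℝ) : ℂ :=
  (δ : ℂ) * Th δ t - ((2 * (δ / δ') : ℝ) : ℂ) * ((((δ + δ') / 2 : ℝ) : ℂ) * Th ((δ + δ') / 2) t -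
    (((δ' - δ) / 2 : ℝ) : ℂ) * Th ((δ' - δ) / 2) t) + (((δ / δ') ^ 2 : ℝ) : ℂ) * ((δ' : ℂ) * Th δ' t)

/-- the real transform -/
private noncomputable def PFB_kr (δ δ' t : ℝ) : ℝ :=
  (2 * Real.sin (δ * t / 2) / t - δ / δ' * (2 * Real.sin (δ' * t / 2) / t)) ^ 2

private theorem PFB_khr (hPTI : PTI_stmt) (δ δ' t : ℝ) (h0 : 0 < δ) (h1 : δ ≤ δ') (ht : t ≠ 0) :
    PFB_kh δ δ' t = ((PFB_kr δ δ' t : ℝ) : ℂ) := by
  have hδ' : 0 < δ' := lt_of_lt_of_le h0 h1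
  have e1 := (PFB_E hPTI δ h0.le).1 t ht
  have e2 := (PFB_E hPTI ((δ + δ') / 2) (by linarith)).1 t ht
  have e3 := (PFB_E hPTI ((δ' - δ) / 2) (by linarith)).1 t ht
  have e4 := (PFB_E hPTI δ' hδ'.le).1 t ht
  unfold PFB_kh
  rw [e1, e2, e3, e4, ← Complex.ofReal_sub, ← Complex.ofReal_mul, ← Complex.ofReal_sub, ← Complex.ofReal_mul, ← Complex.ofReal_add]
  congr 1
  unfold PFB_kr
  have s1 : Real.cos (δ * t) = 1 - 2 * Real.sin (δ * t / 2) ^ 2 := by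
    have h := Real.cos_two_mul (δ * t / 2)
    have h' := Real.sin_sq_add_cos_sq (δ * t / 2)
    rw [show 2 * (δ * t / 2) = δ * t by ring] at h
    linarith
  have s2 : Real.cos (δ' * t) = 1 - 2 * Real.sin (δ' * t / 2) ^ 2 := by
    have h := Real.cos_two_mul (δ' * t / 2)
    have h' := Real.sin_sq_add_cos_sq (δ' * t / 2)
    rw [show 2 * (δ' * t / 2) = δ' * t by ring] at h
    linarith
  have s3 : Real.cos ((δ' - δ) / 2 * t) - Real.cos ((δ + δ') / 2 * t) = 2 * (Real.sin (δ * t / 2) * Real.sin (δ' * t / 2)) := by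
    rw [show (δ' - δ) / 2 * t = δ' * t / 2 - δ * t / 2 by ring, show (δ + δ') / 2 * t = δ' * t / 2 + δ * t / 2 by ring,
      Real.cos_sub, Real.cos_add]
    ring
  have s4 : 2 * (1 - Real.cos ((δ + δ') / 2 * t)) / t ^ 2 - 2 * (1 - Real.cos ((δ' - δ) / 2 * t)) / t ^ 2 =
      4 * (Real.sin (δ * t / 2) * Real.sin (δ' * t / 2)) / t ^ 2 := by
    rw [← sub_div]
    congr 1
    linarith
  rw [s4, s1, s2]
  field_simp
  ring

private theorem PFB_sinb (a t : ℝ) (ha : 0 ≤ a) : |2 * Real.sin (a * t / 2) / t| ≤ a := by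
  rcases eq_or_ne t 0 with h | h
  · rw [h, div_zero, abs_zero]
    exact ha
  · rw [abs_div, div_le_iff₀ (abs_pos.2 h), abs_mul]
    have h1 : |Real.sin (a * t / 2)| ≤ |a * t / 2| := Real.abs_sin_le_abs
    rw [abs_div, abs_mul, abs_of_nonneg ha] at h1
    have h2 : |(2 : ℝ)| = 2 := abs_of_pos (by norm_num)
    rw [h2] at h1 ⊢
    linarith

private theorem PFB_sina (a t : ℝ) : |2 * Real.sin (a * t / 2) / t| ≤ 2 / |t| := by
  rw [abs_div, abs_mul, abs_of_pos (by norm_num : (0 : ℝ) < 2)]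
  apply div_le_div_of_nonneg_right _ (abs_nonneg _)
  linarith [Real.abs_sin_le_one (a * t / 2)]

private theorem PFB_sin3 (u : ℝ) : |Real.sin u - u| ≤ 2 * |u| ^ 3 := by
  rcases le_or_gt |u| 1 with h | h
  · have h1 := Real.sin_bound h
    have h2 : |Real.sin u - u| ≤ |Real.sin u - (u - u ^ 3 / 6)| + |u ^ 3 / 6| := by
      have h3 : Real.sin u - u = (Real.sin u - (u - u ^ 3 / 6)) - u ^ 3 / 6 := by ring
      rw [h3]
      exact abs_sub _ _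
    have h4 : |u ^ 3 / 6| = |u| ^ 3 / 6 := by
      rw [abs_div, abs_pow, abs_of_pos (by norm_num : (0 : ℝ) < 6)]
    have h5 : |u| ^ 5 ≤ |u| ^ 3 := pow_le_pow_of_le_one (abs_nonneg _) h (by norm_num)
    have h6 : 0 ≤ |u| ^ 3 := pow_nonneg (abs_nonneg _) _
    rw [h4] at h2
    linarith
  · have h1 : |Real.sin u - u| ≤ |Real.sin u| + |u| := abs_sub _ _
    have h2 : |Real.sin u| ≤ |u| := Real.abs_sin_le_abs
    have h3 : |u| ≤ |u| ^ 3 := by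
      calc |u| = |u| ^ 1 := (pow_one _).symm
        _ ≤ |u| ^ 3 := pow_le_pow_right₀ h.le (by norm_num)
    linarith

private theorem PFB_sinc (a t : ℝ) (ha : 0 ≤ a) (ht : t ≠ 0) : |2 * Real.sin (a * t / 2) / t - a| ≤ a * (a * t) ^ 2 / 2 := by
  have h1 : 2 * Real.sin (a * t / 2) / t - a = 2 / t * (Real.sin (a * t / 2) - a * t / 2) := by
    field_simp
  have h2 := PFB_sin3 (a * t / 2)
  have ht' : 0 < |t| := abs_pos.2 ht
  rw [h1, abs_mul, abs_div, abs_of_pos (by norm_num : (0 : ℝ) < 2)]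
  calc 2 / |t| * |Real.sin (a * t / 2) - a * t / 2| ≤ 2 / |t| * (2 * |a * t / 2| ^ 3) := mul_le_mul_of_nonneg_left h2 (by positivity)
    _ = a * (a * t) ^ 2 / 2 := by
        rw [abs_div, abs_mul, abs_of_nonneg ha, abs_of_pos (by norm_num : (0 : ℝ) < 2)]
        have h3 : (a * t) ^ 2 = a ^ 2 * |t| ^ 2 := by rw [mul_pow, sq_abs]
        rw [h3]
        field_simp

private theorem PFB_wb (δ δ' t : ℝ) (h0 : 0 < δ) (h1 : δ ≤ δ') (ht : t ≠ 0) : 1 / (2 * Real.pi) * PFB_kr δ δ' t ≤ wkt δ δ' t := by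
  have hδ' : 0 < δ' := lt_of_lt_of_le h0 h1
  have hpi : (4 : ℝ) ≤ 2 * Real.pi := by linarith [Real.pi_gt_three]
  have hr0 : 0 ≤ δ / δ' := by positivity
  have hr1 : δ / δ' ≤ 1 := (div_le_one hδ').2 h1
  have hrd : δ / δ' * δ' = δ := by field_simp
  have ht' : 0 < |t| := abs_pos.2 ht
  have key : ∀ X Y : ℝ, |2 * Real.sin (δ * t / 2) / t - δ / δ' * (2 * Real.sin (δ' * t / 2) / t)| ≤ X → X ^ 2 ≤ 4 * Y →
      1 / (2 * Real.pi) * PFB_kr δ δ' t ≤ Y := by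
    intro X Y hX hXY
    unfold PFB_kr
    have h2 : (2 * Real.sin (δ * t / 2) / t - δ / δ' * (2 * Real.sin (δ' * t / 2) / t)) ^ 2 ≤ X ^ 2 := by
      rw [← sq_abs]
      exact pow_le_pow_left₀ (abs_nonneg _) hX 2
    have h3 : 0 ≤ X ^ 2 := sq_nonneg X
    rw [one_div, inv_mul_le_iff₀ (by linarith)]
    nlinarith
  unfold wkt
  refine le_min (le_min ?_ ?_) ?_
  · refine key (2 * δ) _ ?_ (by nlinarith)
    refine (abs_sub _ _).trans ?_
    rw [abs_mul, abs_of_nonneg hr0]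
    have h2 := PFB_sinb δ t h0.le
    have h3 := mul_le_mul_of_nonneg_left (PFB_sinb δ' t hδ'.le) hr0
    rw [hrd] at h3
    linarith
  · refine key (δ * (δ' * t) ^ 2) _ ?_ (by nlinarith [sq_nonneg (δ * (δ' * t) ^ 2)])
    have h4 : 2 * Real.sin (δ * t / 2) / t - δ / δ' * (2 * Real.sin (δ' * t / 2) / t) =
        (2 * Real.sin (δ * t / 2) / t - δ) - δ / δ' * (2 * Real.sin (δ' * t / 2) / t - δ') := by
      rw [mul_sub, hrd]
      ring
    rw [h4]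
    refine (abs_sub _ _).trans ?_
    rw [abs_mul, abs_of_nonneg hr0]
    have h2 := PFB_sinc δ t h0.le ht
    have h3 := mul_le_mul_of_nonneg_left (PFB_sinc δ' t hδ'.le ht) hr0
    have h5 : δ / δ' * (δ' * (δ' * t) ^ 2 / 2) = δ * (δ' * t) ^ 2 / 2 := by
      rw [← mul_div_assoc, ← mul_assoc, hrd]
    rw [h5] at h3
    have h6 : (δ * t) ^ 2 ≤ (δ' * t) ^ 2 := by
      rw [mul_pow, mul_pow]
      exact mul_le_mul_of_nonneg_right (pow_le_pow_left₀ h0.le h1 2) (sq_nonneg _)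
    have h7 : δ * (δ * t) ^ 2 ≤ δ * (δ' * t) ^ 2 := mul_le_mul_of_nonneg_left h6 h0.le
    linarith
  · refine key (4 / |t|) _ ?_ ?_
    · refine (abs_sub _ _).trans ?_
      rw [abs_mul, abs_of_nonneg hr0]
      have h2 := PFB_sina δ t
      have h3 := mul_le_mul hr1 (PFB_sina δ' t) (abs_nonneg _) zero_le_one
      have h4 : 4 / |t| = 2 / |t| + 1 * (2 / |t|) := by ring
      rw [h4]
      linarith
    · rw [div_pow, sq_abs]
      apply le_of_eq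
      ring

private theorem PFB_wmeas (δ δ' : ℝ) : Measurable (wkt δ δ') := by
  unfold wkt
  exact (measurable_const.min (((measurable_id.const_mul δ').pow_const 4).const_mul _)).min
    (measurable_const.div (measurable_id.pow_const 2))

private theorem PFB_w0 (δ δ' t : ℝ) : 0 ≤ wkt δ δ' t := by
  unfold wkt
  refine le_min (le_min (sq_nonneg _) (mul_nonneg (sq_nonneg _) ?_)) (div_nonneg (by norm_num) (sq_nonneg _))
  exact Even.pow_nonneg (by decide) _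

private theorem PFB_w8 (δ δ' t : ℝ) (h0 : 0 ≤ δ) (h1 : δ ≤ 1) : wkt δ δ' t ≤ 8 * (1 + t ^ 2)⁻¹ := by
  have hp : (0 : ℝ) < 1 + t ^ 2 := by positivity
  rcases le_or_gt (t ^ 2) 1 with h | h
  · have h3 : wkt δ δ' t ≤ δ ^ 2 := by
      unfold wkt
      exact (min_le_left _ _).trans (min_le_left _ _)
    refine h3.trans ?_
    rw [← div_eq_mul_inv, le_div_iff₀ hp]
    have h2 : δ ^ 2 ≤ 1 := pow_le_one₀ h0 h1
    nlinarith
  · have h3 : wkt δ δ' t ≤ 4 / t ^ 2 := by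
      unfold wkt
      exact min_le_right _ _
    refine h3.trans ?_
    rw [← div_eq_mul_inv, div_le_div_iff₀ (by linarith) hp]
    nlinarith

private theorem PFB_int (δ δ' C : ℝ) (h0 : 0 ≤ δ) (h1 : δ ≤ 1) (G : ℝ → ℝ) (hG : Continuous G) (hG0 : ∀ t, 0 ≤ G t)
    (hGC : ∀ t, G t ≤ C) : Integrable (fun t : ℝ => G t * wkt δ δ' t) := by
  refine Integrable.mono' ((integrable_inv_one_add_sq).const_mul (8 * C)) (hG.measurable.mul (PFB_wmeas δ δ')).aestronglyMeasurable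
    (Filter.Eventually.of_forall fun t => ?_)
  rw [Real.norm_eq_abs, abs_of_nonneg (mul_nonneg (hG0 t) (PFB_w0 _ _ _))]
  calc G t * wkt δ δ' t ≤ C * (8 * (1 + t ^ 2)⁻¹) :=
        mul_le_mul (hGC t) (PFB_w8 δ δ' t h0 h1) (PFB_w0 _ _ _) ((hG0 t).trans (hGC t))
    _ = 8 * C * (1 + t ^ 2)⁻¹ := by ring

/-- Fourier inversion for the correlation -/
private theorem PFB_inv (hPBX : PBX_stmt) (hPTI : PTI_stmt) (δ δ' y y' : ℝ) (h0 : 0 < δ) (h1 : δ ≤ δ') :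
    ((∫ v : ℝ, kbw δ δ' (y - v) * kbw δ δ' (y' - v) : ℝ) : ℂ) =
      1 / (2 * Real.pi) * ∫ t : ℝ, PFB_kh δ δ' t * Complex.exp (((t * (y - y') : ℝ) : ℂ) * Complex.I) := by
  have hδ' : 0 < δ' := lt_of_lt_of_le h0 h1
  obtain ⟨-, i1, e1⟩ := PFB_E hPTI δ h0.le
  obtain ⟨-, i2, e2⟩ := PFB_E hPTI ((δ + δ') / 2) (by linarith)
  obtain ⟨-, i3, e3⟩ := PFB_E hPTI ((δ' - δ) / 2) (by linarith)
  obtain ⟨-, i4, e4⟩ := PFB_E hPTI δ' hδ'.le
  have hg : Continuous fun t : ℝ => Complex.exp (((t * (y - y') : ℝ) : ℂ) * Complex.I) := by fun_prop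
  have hb : ∀ t : ℝ, ‖Complex.exp (((t * (y - y') : ℝ) : ℂ) * Complex.I)‖ ≤ 1 := fun t => (Complex.norm_exp_ofReal_mul_I _).le
  have j1 := PFB_bdd _ _ 1 i1 hg hb
  have j2 := PFB_bdd _ _ 1 i2 hg hb
  have j3 := PFB_bdd _ _ 1 i3 hg hb
  have j4 := PFB_bdd _ _ 1 i4 hg hb
  rw [(PFB_corr hPBX δ δ' y y' h0 h1).2, Complex.ofReal_add, Complex.ofReal_sub, Complex.ofReal_mul (2 * (δ / δ')),
    Complex.ofReal_sub, Complex.ofReal_mul ((δ / δ') ^ 2), e1, e2, e3, e4]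
  have he : (fun t : ℝ => PFB_kh δ δ' t * Complex.exp (((t * (y - y') : ℝ) : ℂ) * Complex.I)) = fun t : ℝ =>
      ((δ : ℂ) * Th δ t * Complex.exp (((t * (y - y') : ℝ) : ℂ) * Complex.I) -
        ((2 * (δ / δ') : ℝ) : ℂ) * ((((δ + δ') / 2 : ℝ) : ℂ) * Th ((δ + δ') / 2) t * Complex.exp (((t * (y - y') : ℝ) : ℂ) * Complex.I) -
          (((δ' - δ) / 2 : ℝ) : ℂ) * Th ((δ' - δ) / 2) t * Complex.exp (((t * (y - y') : ℝ) : ℂ) * Complex.I))) +
        (((δ / δ') ^ 2 : ℝ) : ℂ) * ((δ' : ℂ) * Th δ' t * Complex.exp (((t * (y - y') : ℝ) : ℂ) * Complex.I)) := by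
    funext t
    unfold PFB_kh
    ring
  rw [he, PFB_lin4c (fun t : ℝ => (δ : ℂ) * Th δ t * Complex.exp (((t * (y - y') : ℝ) : ℂ) * Complex.I))
    (fun t : ℝ => (((δ + δ') / 2 : ℝ) : ℂ) * Th ((δ + δ') / 2) t * Complex.exp (((t * (y - y') : ℝ) : ℂ) * Complex.I))
    (fun t : ℝ => (((δ' - δ) / 2 : ℝ) : ℂ) * Th ((δ' - δ) / 2) t * Complex.exp (((t * (y - y') : ℝ) : ℂ) * Complex.I))
    (fun t : ℝ => (δ' : ℂ) * Th δ' t * Complex.exp (((t * (y - y') : ℝ) : ℂ) * Complex.I)) _ _ j1 j2 j3 j4]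
  ring

private theorem PFB_khint (hPTI : PTI_stmt) (δ δ' : ℝ) (h0 : 0 < δ) (h1 : δ ≤ δ') : Integrable (PFB_kh δ δ') := by
  have hδ' : 0 < δ' := lt_of_lt_of_le h0 h1
  obtain ⟨-, i1, -⟩ := PFB_E hPTI δ h0.le
  obtain ⟨-, i2, -⟩ := PFB_E hPTI ((δ + δ') / 2) (by linarith)
  obtain ⟨-, i3, -⟩ := PFB_E hPTI ((δ' - δ) / 2) (by linarith)
  obtain ⟨-, i4, -⟩ := PFB_E hPTI δ' hδ'.le
  exact (i1.sub ((i2.sub i3).const_mul _)).add (i4.const_mul _)

theorem PFB (hPBX : PBX_stmt) (hPTI : PTI_stmt) : PFB_stmt := by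
  intro δ δ' h0 h1 h2 ι S x f hx
  have hδ' : 0 < δ' := lt_of_lt_of_le h0 h1
  have hF : Continuous fun t : ℝ => ∑ w ∈ S, f w * nit t (x w : ℝ) := by
    unfold nit
    fun_prop
  have hFb : ∀ t : ℝ, ‖∑ w ∈ S, f w * nit t (x w : ℝ)‖ ≤ ∑ w ∈ S, ‖f w‖ := by
    intro t
    refine (norm_sum_le _ _).trans (Finset.sum_le_sum fun w _ => ?_)
    rw [norm_mul]
    unfold nit
    rw [Complex.norm_exp_ofReal_mul_I, mul_one]
  -- the square, complex form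
  have hsq : ∀ v : ℝ, (((‖∑ w ∈ S, f w * ((kbw δ δ' (Real.log (x w : ℝ) - v) : ℝ) : ℂ)‖ ^ 2 : ℝ)) : ℂ) =
      ∑ w ∈ S, ∑ w' ∈ S, (f w * (starRingEnd ℂ) (f w')) *
        ((kbw δ δ' (Real.log (x w : ℝ) - v) * kbw δ δ' (Real.log (x w' : ℝ) - v) : ℝ) : ℂ) := by
    intro v
    rw [Complex.ofReal_pow, ← Complex.mul_conj', map_sum, Finset.sum_mul_sum]
    refine Finset.sum_congr rfl fun w _ => Finset.sum_congr rfl fun w' _ => ?_
    rw [map_mul, Complex.conj_ofReal, Complex.ofReal_mul]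
    ring
  have hInt : ∀ w w' : ι, Integrable (fun v : ℝ => (f w * (starRingEnd ℂ) (f w')) *
      ((kbw δ δ' (Real.log (x w : ℝ) - v) * kbw δ δ' (Real.log (x w' : ℝ) - v) : ℝ) : ℂ)) := fun w w' =>
    ((PFB_corr hPBX δ δ' (Real.log (x w : ℝ)) (Real.log (x w' : ℝ)) h0 h1).1.ofReal).const_mul _
  have hIntS : Integrable (fun v : ℝ => (((‖∑ w ∈ S, f w * ((kbw δ δ' (Real.log (x w : ℝ) - v) : ℝ) : ℂ)‖ ^ 2 : ℝ)) : ℂ)) := by
    simp_rw [hsq]
    exact integrable_finset_sum _ fun w _ => integrable_finset_sum _ fun w' _ => hInt w w'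
  have hI1 : Integrable (fun v : ℝ => ‖∑ w ∈ S, f w * ((kbw δ δ' (Real.log (x w : ℝ) - v) : ℝ) : ℂ)‖ ^ 2) := by
    have h3 := hIntS.re
    simp only [RCLike.re_to_complex, Complex.ofReal_re] at h3
    exact h3
  have hI2 : Integrable (fun t : ℝ => ‖∑ w ∈ S, f w * nit t (x w : ℝ)‖ ^ 2 * wkt δ δ' t) :=
    PFB_int δ δ' ((∑ w ∈ S, ‖f w‖) ^ 2) h0.le (h1.trans h2) _ (hF.norm.pow 2) (fun t => sq_nonneg _)
      fun t => pow_le_pow_left₀ (norm_nonneg _) (hFb t) 2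
  refine ⟨hI1, hI2, ?_⟩
  -- the formula
  have hmain : ((∫ v : ℝ, ‖∑ w ∈ S, f w * ((kbw δ δ' (Real.log (x w : ℝ) - v) : ℝ) : ℂ)‖ ^ 2 : ℝ) : ℂ) =
      ((∫ t : ℝ, 1 / (2 * Real.pi) * PFB_kr δ δ' t * ‖∑ w ∈ S, f w * nit t (x w : ℝ)‖ ^ 2 : ℝ) : ℂ) := by
    rw [← integral_complex_ofReal, ← integral_complex_ofReal]
    simp_rw [hsq]
    rw [integral_finset_sum _ fun w _ => integrable_finset_sum _ fun w' _ => hInt w w']
    have h3 : ∀ w ∈ S, ∫ v : ℝ, ∑ w' ∈ S, (f w * (starRingEnd ℂ) (f w')) *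
        ((kbw δ δ' (Real.log (x w : ℝ) - v) * kbw δ δ' (Real.log (x w' : ℝ) - v) : ℝ) : ℂ) =
        ∑ w' ∈ S, (f w * (starRingEnd ℂ) (f w')) * (1 / (2 * Real.pi) * ∫ t : ℝ, PFB_kh δ δ' t *
          Complex.exp (((t * (Real.log (x w : ℝ) - Real.log (x w' : ℝ)) : ℝ) : ℂ) * Complex.I)) := by
      intro w _
      rw [integral_finset_sum _ fun w' _ => hInt w w']
      refine Finset.sum_congr rfl fun w' _ => ?_
      rw [integral_const_mul, integral_complex_ofReal, PFB_inv hPBX hPTI δ δ' _ _ h0 h1]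
    rw [Finset.sum_congr rfl h3]
    have hE : ∀ w w' : ι, Integrable (fun t : ℝ => PFB_kh δ δ' t *
        Complex.exp (((t * (Real.log (x w : ℝ) - Real.log (x w' : ℝ)) : ℝ) : ℂ) * Complex.I)) := fun w w' =>
      PFB_bdd _ _ 1 (PFB_khint hPTI δ δ' h0 h1) (by fun_prop) (fun t => (Complex.norm_exp_ofReal_mul_I _).le)
    have h4 : ∀ w w' : ι, (f w * (starRingEnd ℂ) (f w')) * (1 / (2 * Real.pi) * ∫ t : ℝ, PFB_kh δ δ' t *
          Complex.exp (((t * (Real.log (x w : ℝ) - Real.log (x w' : ℝ)) : ℝ) : ℂ) * Complex.I)) =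
        ∫ t : ℝ, (f w * (starRingEnd ℂ) (f w') * (1 / (2 * Real.pi))) * (PFB_kh δ δ' t *
          Complex.exp (((t * (Real.log (x w : ℝ) - Real.log (x w' : ℝ)) : ℝ) : ℂ) * Complex.I)) := by
      intro w w'
      rw [integral_const_mul]
      ring
    simp_rw [h4]
    have h5 : ∀ w ∈ S, ∑ w' ∈ S, ∫ t : ℝ, (f w * (starRingEnd ℂ) (f w') * (1 / (2 * Real.pi))) * (PFB_kh δ δ' t *
          Complex.exp (((t * (Real.log (x w : ℝ) - Real.log (x w' : ℝ)) : ℝ) : ℂ) * Complex.I)) =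
        ∫ t : ℝ, ∑ w' ∈ S, (f w * (starRingEnd ℂ) (f w') * (1 / (2 * Real.pi))) * (PFB_kh δ δ' t *
          Complex.exp (((t * (Real.log (x w : ℝ) - Real.log (x w' : ℝ)) : ℝ) : ℂ) * Complex.I)) := fun w _ =>
      (integral_finset_sum _ fun w' _ => (hE w w').const_mul _).symm
    rw [Finset.sum_congr rfl h5, ← integral_finset_sum _ fun w _ => integrable_finset_sum _ fun w' _ => (hE w w').const_mul _]
    apply integral_congr_ae
    have hne : ∀ᵐ t : ℝ, t ≠ 0 := by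
      rw [ae_iff]
      simp
    filter_upwards [hne] with t ht
    have h6 : ((‖∑ w ∈ S, f w * nit t (x w : ℝ)‖ ^ 2 : ℝ) : ℂ) =
        ∑ w ∈ S, ∑ w' ∈ S, (f w * (starRingEnd ℂ) (f w')) *
          Complex.exp (((t * (Real.log (x w : ℝ) - Real.log (x w' : ℝ)) : ℝ) : ℂ) * Complex.I) := by
      rw [Complex.ofReal_pow, ← Complex.mul_conj', map_sum, Finset.sum_mul_sum]
      refine Finset.sum_congr rfl fun w _ => Finset.sum_congr rfl fun w' _ => ?_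
      have h7 : Complex.exp (((t * (Real.log (x w : ℝ) - Real.log (x w' : ℝ)) : ℝ) : ℂ) * Complex.I) =
          nit t (x w : ℝ) * (starRingEnd ℂ) (nit t (x w' : ℝ)) := by
        unfold nit
        rw [← Complex.exp_conj, ← Complex.exp_add, map_mul, Complex.conj_ofReal, Complex.conj_I]
        congr 1
        push_cast
        ring
      rw [h7, map_mul]
      ring
    rw [Complex.ofReal_mul, h6, Finset.mul_sum]
    refine Finset.sum_congr rfl fun w _ => ?_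
    rw [Finset.mul_sum]
    refine Finset.sum_congr rfl fun w' _ => ?_
    rw [PFB_khr hPTI δ δ' t h0 h1 ht]
    push_cast
    ring
  have hreal := Complex.ofReal_injective hmain
  rw [hreal]
  apply integral_mono_of_nonneg _ hI2
  · have hne : ∀ᵐ t : ℝ, t ≠ 0 := by
      rw [ae_iff]
      simp
    filter_upwards [hne] with t ht
    calc 1 / (2 * Real.pi) * PFB_kr δ δ' t * ‖∑ w ∈ S, f w * nit t (x w : ℝ)‖ ^ 2
        ≤ wkt δ δ' t * ‖∑ w ∈ S, f w * nit t (x w : ℝ)‖ ^ 2 :=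
          mul_le_mul_of_nonneg_right (PFB_wb δ δ' t h0 h1 ht) (sq_nonneg _)
      _ = ‖∑ w ∈ S, f w * nit t (x w : ℝ)‖ ^ 2 * wkt δ δ' t := mul_comm _ _
  · refine Filter.Eventually.of_forall fun t => ?_
    show 0 ≤ 1 / (2 * Real.pi) * PFB_kr δ δ' t * ‖∑ w ∈ S, f w * nit t (x w : ℝ)‖ ^ 2
    unfold PFB_kr
    positivity

end Pool.Agent.FJ
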