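import Pool.Agent.helper94.FJ.SpecP

/-!
# fj:PIN: the three ranges of frequencies
-/

set_option autoImplicit false

namespace Pool.Agent.FJ

open Finset ArithmeticFunction MeasureTheory
open Pool.Agent.CH (nit DPb)
open Pool.Agent.SK (tr0 Th muz sml bgf zN uu)
open Pool.Agent.helper85.BVP (tau)

private theorem PIN_meas (ε : ℝ) (B₁ N : ℕ) : MeasurableSet (T2s ε B₁ N) := by
  unfold T2s
  exact (measurableSet_le measurable_const continuous_abs.measurable).inter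
    (measurableSet_le continuous_abs.measurable measurable_const)

private theorem PIN_wmeas (δ δ' : ℝ) : Measurable (wkt δ δ') := by
  unfold wkt
  exact (measurable_const.min (((measurable_id.const_mul δ').pow_const 4).const_mul _)).min
    (measurable_const.div (measurable_id.pow_const 2))

private theorem PIN_w0 (δ δ' t : ℝ) : 0 ≤ wkt δ δ' t := by
  unfold wkt
  refine le_min (le_min (sq_nonneg _) (mul_nonneg (sq_nonneg _) ?_)) (div_nonneg (by norm_num) (sq_nonneg _))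
  exact Even.pow_nonneg (by decide) _

private theorem PIN_w1 (δ δ' t : ℝ) : wkt δ δ' t ≤ δ ^ 2 := by
  unfold wkt
  exact (min_le_left _ _).trans (min_le_left _ _)

private theorem PIN_w2 (δ δ' t : ℝ) : wkt δ δ' t ≤ δ ^ 2 * (δ' * t) ^ 4 := by
  unfold wkt
  exact (min_le_left _ _).trans (min_le_right _ _)

private theorem PIN_w3 (δ δ' t : ℝ) : wkt δ δ' t ≤ 4 / t ^ 2 := by
  unfold wkt
  exact min_le_right _ _

private theorem PIN_wb (δ δ' t : ℝ) (h0 : 0 ≤ δ) (h1 : δ ≤ 1) : wkt δ δ' t ≤ 8 * (1 + t ^ 2)⁻¹ := by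
  have hp : (0 : ℝ) < 1 + t ^ 2 := by positivity
  rcases le_or_gt (t ^ 2) 1 with h | h
  · refine (PIN_w1 δ δ' t).trans ?_
    rw [← div_eq_mul_inv, le_div_iff₀ hp]
    have h2 : δ ^ 2 ≤ 1 := pow_le_one₀ h0 h1
    nlinarith
  · refine (PIN_w3 δ δ' t).trans ?_
    rw [← div_eq_mul_inv, div_le_div_iff₀ (by linarith) hp]
    nlinarith

/-- domination -/
private theorem PIN_int (δ δ' C : ℝ) (h0 : 0 ≤ δ) (h1 : δ ≤ 1) (G : ℝ → ℝ) (hG : Continuous G) (hG0 : ∀ t, 0 ≤ G t)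
    (hGC : ∀ t, G t ≤ C) : Integrable (fun t : ℝ => G t * wkt δ δ' t) := by
  refine Integrable.mono' ((integrable_inv_one_add_sq).const_mul (8 * C)) (hG.measurable.mul (PIN_wmeas δ δ')).aestronglyMeasurable
    (Filter.Eventually.of_forall fun t => ?_)
  rw [Real.norm_eq_abs, abs_of_nonneg (mul_nonneg (hG0 t) (PIN_w0 _ _ _))]
  calc G t * wkt δ δ' t ≤ C * (8 * (1 + t ^ 2)⁻¹) :=
        mul_le_mul (hGC t) (PIN_wb δ δ' t h0 h1) (PIN_w0 _ _ _) ((hG0 t).trans (hGC t))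
    _ = 8 * C * (1 + t ^ 2)⁻¹ := by ring

/-- one dyadic step: from `U` to `2 U` -/
private theorem PIN_step (δ δ' U : ℝ) (hU : 0 < U) (G : ℝ → ℝ) (hG : Continuous G) (hG0 : ∀ t, 0 ≤ G t)
    (hI : Integrable (fun t : ℝ => G t * wkt δ δ' t)) :
    ∫ t in (-(2 * U))..(2 * U), G t * wkt δ δ' t ≤
      (∫ t in (-U)..U, G t * wkt δ δ' t) + 4 / U ^ 2 * ∫ t in (-(2 * U))..(2 * U), G t := by
  rw [intervalIntegral.integral_of_le (by linarith), intervalIntegral.integral_of_le (by linarith),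
    intervalIntegral.integral_of_le (by linarith), ← integral_Icc_eq_integral_Ioc, ← integral_Icc_eq_integral_Ioc,
    ← integral_Icc_eq_integral_Ioc, ← integral_indicator measurableSet_Icc, ← integral_indicator measurableSet_Icc,
    ← integral_indicator measurableSet_Icc, ← integral_const_mul]
  have h2 : Integrable ((Set.Icc (-U) U).indicator fun t => G t * wkt δ δ' t) := hI.indicator measurableSet_Icc
  have h3 : Integrable ((Set.Icc (-(2 * U)) (2 * U)).indicator G) := by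
    rw [integrable_indicator_iff measurableSet_Icc]
    exact hG.continuousOn.integrableOn_compact isCompact_Icc
  rw [← integral_add h2 (h3.const_mul _)]
  apply integral_mono (hI.indicator measurableSet_Icc) (h2.add (h3.const_mul _))
  intro t
  show (Set.Icc (-(2 * U)) (2 * U)).indicator (fun t => G t * wkt δ δ' t) t ≤
    (Set.Icc (-U) U).indicator (fun t => G t * wkt δ δ' t) t + 4 / U ^ 2 * (Set.Icc (-(2 * U)) (2 * U)).indicator G t
  have hnn : 0 ≤ G t * wkt δ δ' t := mul_nonneg (hG0 t) (PIN_w0 _ _ _)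
  have hnn' : 0 ≤ 4 / U ^ 2 * G t := mul_nonneg (by positivity) (hG0 t)
  by_cases h4 : t ∈ Set.Icc (-(2 * U)) (2 * U)
  · rw [Set.indicator_of_mem h4, Set.indicator_of_mem h4]
    by_cases h5 : t ∈ Set.Icc (-U) U
    · rw [Set.indicator_of_mem h5]
      linarith
    · rw [Set.indicator_of_notMem h5, zero_add]
      have h6 : U ≤ |t| := by
        by_contra h7
        push Not at h7
        exact h5 (abs_le.1 h7.le)
      have h8 : U ^ 2 ≤ t ^ 2 := by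
        rw [← sq_abs t]
        exact pow_le_pow_left₀ hU.le h6 2
      calc G t * wkt δ δ' t ≤ G t * (4 / t ^ 2) := mul_le_mul_of_nonneg_left (PIN_w3 _ _ _) (hG0 t)
        _ ≤ G t * (4 / U ^ 2) := mul_le_mul_of_nonneg_left (div_le_div_of_nonneg_left (by norm_num) (by positivity) h8) (hG0 t)
        _ = 4 / U ^ 2 * G t := mul_comm _ _
  · have h5 : t ∉ Set.Icc (-U) U := fun h6 => h4 ⟨by linarith [h6.1], by linarith [h6.2]⟩
    rw [Set.indicator_of_notMem h4, Set.indicator_of_notMem h4, Set.indicator_of_notMem h5, mul_zero, add_zero]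

/-- all dyadic steps -/
private theorem PIN_dy (δ δ' T₀ n Q : ℝ) (hT : 1 ≤ T₀) (hn : 0 ≤ n) (hQ : 0 ≤ Q) (G : ℝ → ℝ) (hG : Continuous G) (hG0 : ∀ t, 0 ≤ G t)
    (hI : Integrable (fun t : ℝ => G t * wkt δ δ' t))
    (hm : ∀ T : ℝ, 1 ≤ T → ∫ t in (-T)..T, G t ≤ (T + n) * n * Q) (J : ℕ) :
    ∫ t in (-(2 ^ J * T₀))..(2 ^ J * T₀), G t * wkt δ δ' t ≤
      (∫ t in (-T₀)..T₀, G t * wkt δ δ' t) + 16 * (n / T₀ + n ^ 2 / T₀ ^ 2) * Q * (1 - (1 / 2) ^ J) := by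
  induction J with
  | zero =>
    rw [pow_zero, one_mul, pow_zero, sub_self, mul_zero, add_zero]
  | succ J ih =>
    have hU : 0 < 2 ^ J * T₀ := by positivity
    have hJ1 : (1 : ℝ) ≤ 2 ^ J := one_le_pow₀ (by norm_num)
    have h1 := PIN_step δ δ' (2 ^ J * T₀) hU G hG hG0 hI
    have h2 : 2 * (2 ^ J * T₀) = 2 ^ (J + 1) * T₀ := by ring
    rw [h2] at h1
    have h3 : (1 : ℝ) ≤ 2 ^ (J + 1) * T₀ := by
      have h4 : (1 : ℝ) ≤ 2 ^ (J + 1) := one_le_pow₀ (by norm_num)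
      nlinarith
    have h5 := hm _ h3
    have h6 : 4 / (2 ^ J * T₀) ^ 2 * ∫ t in (-(2 ^ (J + 1) * T₀))..(2 ^ (J + 1) * T₀), G t ≤
        16 * (n / T₀ + n ^ 2 / T₀ ^ 2) * Q * (1 / 2) ^ (J + 1) := by
      refine (mul_le_mul_of_nonneg_left h5 (by positivity)).trans ?_
      have hpe : ((1 : ℝ) / 2) ^ (J + 1) = 1 / (2 * 2 ^ J) := by
        rw [one_div, inv_pow, pow_succ, one_div]
        congr 1
        ring
      rw [hpe]
      have h7 : 4 / (2 ^ J * T₀) ^ 2 * ((2 ^ (J + 1) * T₀ + n) * n * Q) =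
          (8 * (n / T₀) + 4 * (n ^ 2 / T₀ ^ 2) / 2 ^ J) * Q * (1 / 2 ^ J) := by
        field_simp
        ring
      rw [h7]
      have h8 : 16 * (n / T₀ + n ^ 2 / T₀ ^ 2) * Q * (1 / (2 * 2 ^ J)) =
          (8 * (n / T₀) + 8 * (n ^ 2 / T₀ ^ 2)) * Q * (1 / 2 ^ J) := by
        field_simp
        ring
      rw [h8]
      apply mul_le_mul_of_nonneg_right _ (by positivity)
      apply mul_le_mul_of_nonneg_right _ hQ
      have h9 : 4 * (n ^ 2 / T₀ ^ 2) / 2 ^ J ≤ 8 * (n ^ 2 / T₀ ^ 2) := by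
        have h10 : 0 ≤ n ^ 2 / T₀ ^ 2 := by positivity
        rw [div_le_iff₀ (by positivity)]
        nlinarith [mul_nonneg h10 (sub_nonneg.2 hJ1)]
      linarith
    have h11 : 16 * (n / T₀ + n ^ 2 / T₀ ^ 2) * Q * (1 - (1 / 2) ^ (J + 1)) =
        16 * (n / T₀ + n ^ 2 / T₀ ^ 2) * Q * (1 - (1 / 2) ^ J) + 16 * (n / T₀ + n ^ 2 / T₀ ^ 2) * Q * (1 / 2) ^ (J + 1) := by
      rw [pow_succ]
      ring
    rw [h11]
    linarith

/-- the whole line -/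
private theorem PIN_all (δ δ' T₀ n Q : ℝ) (hT : 1 ≤ T₀) (hn : 0 ≤ n) (hQ : 0 ≤ Q) (G : ℝ → ℝ) (hG : Continuous G) (hG0 : ∀ t, 0 ≤ G t)
    (hI : Integrable (fun t : ℝ => G t * wkt δ δ' t))
    (hm : ∀ T : ℝ, 1 ≤ T → ∫ t in (-T)..T, G t ≤ (T + n) * n * Q) :
    ∫ t : ℝ, G t * wkt δ δ' t ≤ (∫ t in (-T₀)..T₀, G t * wkt δ δ' t) + 16 * (n / T₀ + n ^ 2 / T₀ ^ 2) * Q := by
  have h1 : Filter.Tendsto (fun J : ℕ => (2 : ℝ) ^ J * T₀) Filter.atTop Filter.atTop :=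
    (tendsto_pow_atTop_atTop_of_one_lt (by norm_num)).atTop_mul_const (by linarith)
  have h2 := intervalIntegral_tendsto_integral hI (Filter.tendsto_neg_atTop_atBot.comp h1) h1
  refine le_of_tendsto' h2 fun J => ?_
  refine (PIN_dy δ δ' T₀ n Q hT hn hQ G hG hG0 hI hm J).trans ?_
  have h3 : 0 ≤ 16 * (n / T₀ + n ^ 2 / T₀ ^ 2) * Q := by positivity
  have h4 : (0 : ℝ) ≤ (1 / 2) ^ J := by positivity
  nlinarith [mul_nonneg h3 h4]

/-- the central part -/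
private theorem PIN_mid (ε : ℝ) (B₁ N : ℕ) (δ δ' C : ℝ) (hL : 0 ≤ Real.log N) (G : ℝ → ℝ) (hG : Continuous G)
    (hG0 : ∀ t, 0 ≤ G t) (hGC : ∀ t, G t ≤ C) (hI : Integrable (fun t : ℝ => G t * wkt δ δ' t)) (hT : (0 : ℝ) ≤ (N : ℝ) ^ (2 - 4 * ε)) :
    ∫ t in (-(N : ℝ) ^ (2 - 4 * ε))..((N : ℝ) ^ (2 - 4 * ε)), G t * wkt δ δ' t ≤
      2 * Real.log N ^ B₁ * (C * (δ ^ 2 * (δ' * Real.log N ^ B₁) ^ 4)) + δ ^ 2 * ∫ t in T2s ε B₁ N, G t := by
  have hLB : 0 ≤ Real.log N ^ B₁ := pow_nonneg hL _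
  have hC0 : 0 ≤ C := (hG0 0).trans (hGC 0)
  have hsub : T2s ε B₁ N ⊆ Set.Icc (-(N : ℝ) ^ (2 - 4 * ε)) ((N : ℝ) ^ (2 - 4 * ε)) := by
    intro t ht
    exact abs_le.1 ht.2
  have hc : ∫ t : ℝ, (Set.Icc (-(Real.log N ^ B₁)) (Real.log N ^ B₁)).indicator (fun _ => C * (δ ^ 2 * (δ' * Real.log N ^ B₁) ^ 4)) t =
      2 * Real.log N ^ B₁ * (C * (δ ^ 2 * (δ' * Real.log N ^ B₁) ^ 4)) := by
    rw [integral_indicator measurableSet_Icc, setIntegral_const, Measure.real, Real.volume_Icc, ENNReal.toReal_ofReal (by linarith), smul_eq_mul]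
    ring
  rw [intervalIntegral.integral_of_le (by linarith), ← integral_Icc_eq_integral_Ioc, ← integral_indicator measurableSet_Icc, ← hc,
    ← integral_indicator (PIN_meas ε B₁ N), ← integral_const_mul]
  have h1 : Integrable ((Set.Icc (-(Real.log N ^ B₁)) (Real.log N ^ B₁)).indicator (fun _ => C * (δ ^ 2 * (δ' * Real.log N ^ B₁) ^ 4))) := by
    rw [integrable_indicator_iff measurableSet_Icc]
    exact continuous_const.continuousOn.integrableOn_compact isCompact_Icc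
  have h2 : Integrable ((T2s ε B₁ N).indicator G) := by
    rw [integrable_indicator_iff (PIN_meas ε B₁ N)]
    exact (hG.continuousOn.integrableOn_compact isCompact_Icc).mono_set hsub
  rw [← integral_add h1 (h2.const_mul _)]
  apply integral_mono (hI.indicator measurableSet_Icc) (h1.add (h2.const_mul _))
  intro t
  show (Set.Icc (-(N : ℝ) ^ (2 - 4 * ε)) ((N : ℝ) ^ (2 - 4 * ε))).indicator (fun t => G t * wkt δ δ' t) t ≤
    (Set.Icc (-(Real.log N ^ B₁)) (Real.log N ^ B₁)).indicator (fun _ => C * (δ ^ 2 * (δ' * Real.log N ^ B₁) ^ 4)) t +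
      δ ^ 2 * (T2s ε B₁ N).indicator G t
  have h3 : 0 ≤ (Set.Icc (-(Real.log N ^ B₁)) (Real.log N ^ B₁)).indicator (fun _ => C * (δ ^ 2 * (δ' * Real.log N ^ B₁) ^ 4)) t :=
    Set.indicator_nonneg (fun _ _ => by positivity) t
  have h4 : 0 ≤ δ ^ 2 * (T2s ε B₁ N).indicator G t :=
    mul_nonneg (sq_nonneg _) (Set.indicator_nonneg (fun x _ => hG0 x) t)
  by_cases h5 : t ∈ Set.Icc (-(N : ℝ) ^ (2 - 4 * ε)) ((N : ℝ) ^ (2 - 4 * ε))
  · rw [Set.indicator_of_mem h5]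
    by_cases h6 : t ∈ Set.Icc (-(Real.log N ^ B₁)) (Real.log N ^ B₁)
    · rw [Set.indicator_of_mem h6]
      have h7 : (δ' * t) ^ 4 ≤ (δ' * Real.log N ^ B₁) ^ 4 := by
        have h8 : |t| ≤ Real.log N ^ B₁ := abs_le.2 h6
        rw [mul_pow, mul_pow, ← Even.pow_abs (by decide : Even 4) t]
        exact mul_le_mul_of_nonneg_left (pow_le_pow_left₀ (abs_nonneg _) h8 4) (Even.pow_nonneg (by decide) _)
      calc G t * wkt δ δ' t ≤ C * (δ ^ 2 * (δ' * t) ^ 4) := mul_le_mul (hGC t) (PIN_w2 _ _ _) (PIN_w0 _ _ _) hC0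
        _ ≤ C * (δ ^ 2 * (δ' * Real.log N ^ B₁) ^ 4) := mul_le_mul_of_nonneg_left (mul_le_mul_of_nonneg_left h7 (sq_nonneg _)) hC0
        _ ≤ C * (δ ^ 2 * (δ' * Real.log N ^ B₁) ^ 4) + δ ^ 2 * (T2s ε B₁ N).indicator G t := by linarith
    · have h7 : t ∈ T2s ε B₁ N := by
        refine ⟨?_, abs_le.2 h5⟩
        by_contra h8
        push Not at h8
        exact h6 (abs_le.1 h8.le)
      rw [Set.indicator_of_mem h7]
      calc G t * wkt δ δ' t ≤ G t * δ ^ 2 := mul_le_mul_of_nonneg_left (PIN_w1 _ _ _) (hG0 t)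
        _ = δ ^ 2 * G t := mul_comm _ _
        _ ≤ _ := by linarith
  · rw [Set.indicator_of_notMem h5]
    linarith

/-- the numerical inequality -/
private theorem PIN_num (A c K B₁ B : ℕ) (n L ε δ I₂ : ℝ) (hn1 : 1 ≤ n) (hL : 8 ≤ L) (hlarge : 128 * L ^ (K + A) ≤ n ^ (8 * ε))
    (hB : c + 2 * B₁ + A + 1 ≤ B) (hδ : n ^ (-2 + 8 * ε) ≤ δ) (hI : I₂ ≤ n ^ 6 / L ^ (A + 1)) (hε : 0 < ε) :
    2 * L ^ B₁ * (n ^ 6 * L ^ c * (δ ^ 2 * (1 / L ^ B * L ^ B₁) ^ 4)) + δ ^ 2 * I₂ +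
      16 * (n ^ 3 / n ^ (2 - 4 * ε) + (n ^ 3) ^ 2 / (n ^ (2 - 4 * ε)) ^ 2) * L ^ K ≤ δ ^ 2 * n ^ 6 / L ^ A := by
  have hn0 : (0 : ℝ) < n := by linarith
  have hL0 : (0 : ℝ) < L := by linarith
  have hL1 : (1 : ℝ) ≤ L := by linarith
  have hδ0 : (0 : ℝ) < δ := lt_of_lt_of_le (Real.rpow_pos_of_pos hn0 _) hδ
  -- first part
  have h1 : 2 * L ^ B₁ * (n ^ 6 * L ^ c * (δ ^ 2 * (1 / L ^ B * L ^ B₁) ^ 4)) ≤ δ ^ 2 * n ^ 6 / L ^ A / 4 := by
    have h2 : 8 * L ^ (5 * B₁ + c + A) ≤ L ^ (4 * B) := by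
      calc 8 * L ^ (5 * B₁ + c + A) ≤ L * L ^ (5 * B₁ + c + A) := mul_le_mul_of_nonneg_right hL (pow_nonneg hL0.le _)
        _ = L ^ (5 * B₁ + c + A + 1) := by rw [pow_succ]; ring
        _ ≤ L ^ (4 * B) := pow_le_pow_right₀ hL1 (by omega)
    have h3 : 2 * L ^ B₁ * (n ^ 6 * L ^ c * (δ ^ 2 * (1 / L ^ B * L ^ B₁) ^ 4)) =
        δ ^ 2 * n ^ 6 * (8 * L ^ (5 * B₁ + c + A)) / (4 * L ^ A * L ^ (4 * B)) := by
      have h4 : (1 / L ^ B * L ^ B₁) ^ 4 = L ^ (4 * B₁) / L ^ (4 * B) := by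
        rw [mul_pow, div_pow, one_pow, ← pow_mul, ← pow_mul, mul_comm B 4, mul_comm B₁ 4]
        ring
      rw [h4, show (5 * B₁ + c + A) = B₁ + (4 * B₁) + c + A by ring, pow_add, pow_add, pow_add]
      have h5 : L ^ A ≠ 0 := pow_ne_zero _ hL0.ne'
      have h6 : L ^ (4 * B) ≠ 0 := pow_ne_zero _ hL0.ne'
      field_simp
      ring
    rw [h3, div_div, div_le_div_iff₀ (by positivity) (by positivity)]
    calc δ ^ 2 * n ^ 6 * (8 * L ^ (5 * B₁ + c + A)) * (L ^ A * 4)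
        = (δ ^ 2 * n ^ 6 * (L ^ A * 4)) * (8 * L ^ (5 * B₁ + c + A)) := by ring
      _ ≤ (δ ^ 2 * n ^ 6 * (L ^ A * 4)) * L ^ (4 * B) := mul_le_mul_of_nonneg_left h2 (by positivity)
      _ = δ ^ 2 * n ^ 6 * (4 * L ^ A * L ^ (4 * B)) := by ring
  -- second part
  have h2 : δ ^ 2 * I₂ ≤ δ ^ 2 * n ^ 6 / L ^ A / 4 := by
    have h3 : n ^ 6 / L ^ (A + 1) ≤ n ^ 6 / L ^ A / 4 := by
      rw [pow_succ, div_div]
      exact div_le_div_of_nonneg_left (by positivity) (by positivity) (mul_le_mul_of_nonneg_left (by linarith) (by positivity))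
    calc δ ^ 2 * I₂ ≤ δ ^ 2 * (n ^ 6 / L ^ A / 4) := mul_le_mul_of_nonneg_left (hI.trans h3) (sq_nonneg _)
      _ = δ ^ 2 * n ^ 6 / L ^ A / 4 := by ring
  -- third part
  have h3 : n ^ 3 / n ^ (2 - 4 * ε) + (n ^ 3) ^ 2 / (n ^ (2 - 4 * ε)) ^ 2 ≤ 2 * n ^ (2 + 8 * ε) := by
    have h4 : n ^ 3 / n ^ (2 - 4 * ε) = n ^ (1 + 4 * ε) := by
      rw [← Real.rpow_natCast, ← Real.rpow_sub hn0]
      congr 1
      push_cast
      ring
    have h5 : (n ^ (1 + 4 * ε)) ^ 2 = n ^ (2 + 8 * ε) := by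
      rw [← Real.rpow_natCast, ← Real.rpow_mul hn0.le]
      congr 1
      push_cast
      ring
    have h6 : n ^ (1 + 4 * ε) ≤ n ^ (2 + 8 * ε) := Real.rpow_le_rpow_of_exponent_le hn1 (by linarith)
    rw [← div_pow, h4, h5]
    linarith
  have h4 : 16 * (n ^ 3 / n ^ (2 - 4 * ε) + (n ^ 3) ^ 2 / (n ^ (2 - 4 * ε)) ^ 2) * L ^ K ≤ δ ^ 2 * n ^ 6 / L ^ A / 2 := by
    have h5 : n ^ (2 + 16 * ε) ≤ δ ^ 2 * n ^ 6 := by
      have h6 : (n ^ (-2 + 8 * ε)) ^ 2 ≤ δ ^ 2 := pow_le_pow_left₀ (Real.rpow_nonneg hn0.le _) hδ 2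
      calc n ^ (2 + 16 * ε) = (n ^ (-2 + 8 * ε)) ^ 2 * n ^ 6 := by
            rw [← Real.rpow_natCast (n ^ (-2 + 8 * ε)), ← Real.rpow_mul hn0.le, ← Real.rpow_natCast n 6, ← Real.rpow_add hn0]
            congr 1
            push_cast
            ring
        _ ≤ δ ^ 2 * n ^ 6 := mul_le_mul_of_nonneg_right h6 (by positivity)
    have h6 : n ^ (2 + 16 * ε) = n ^ (2 + 8 * ε) * n ^ (8 * ε) := by
      rw [← Real.rpow_add hn0]
      congr 1
      ring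
    calc 16 * (n ^ 3 / n ^ (2 - 4 * ε) + (n ^ 3) ^ 2 / (n ^ (2 - 4 * ε)) ^ 2) * L ^ K
        ≤ 16 * (2 * n ^ (2 + 8 * ε)) * L ^ K := mul_le_mul_of_nonneg_right (mul_le_mul_of_nonneg_left h3 (by norm_num)) (pow_nonneg hL0.le _)
      _ = n ^ (2 + 8 * ε) * (64 * L ^ (K + A)) / (2 * L ^ A) := by
          rw [pow_add]
          field_simp
          ring
      _ ≤ n ^ (2 + 8 * ε) * n ^ (8 * ε) / (2 * L ^ A) := by
          apply div_le_div_of_nonneg_right _ (by positivity)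
          apply mul_le_mul_of_nonneg_left _ (Real.rpow_nonneg hn0.le _)
          have h7 : 0 ≤ L ^ (K + A) := pow_nonneg hL0.le _
          linarith
      _ ≤ δ ^ 2 * n ^ 6 / (2 * L ^ A) := by
          apply div_le_div_of_nonneg_right _ (by positivity)
          rw [← h6]
          exact h5
      _ = δ ^ 2 * n ^ 6 / L ^ A / 2 := by
          rw [div_div, mul_comm 2]
  linarith

theorem PIN : PIN_stmt := by
  intro ε hε0 hε1 A c K B₁
  refine ⟨c + 2 * B₁ + A + 1, fun B hB => ?_⟩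
  obtain ⟨N₀, hN₀⟩ : ∃ N₀ : ℕ, ∀ N : ℕ, N₀ ≤ N → (8 ≤ Real.log N ∧ 128 * Real.log N ^ (K + A) ≤ (N : ℝ) ^ (8 * ε)) := by
    have h1 : ∀ᶠ N : ℕ in Filter.atTop, 8 ≤ Real.log (N : ℝ) :=
      (Real.tendsto_log_atTop.comp tendsto_natCast_atTop_atTop).eventually_ge_atTop 8
    have h2 : ∀ᶠ N : ℕ in Filter.atTop, 128 * Real.log (N : ℝ) ^ (K + A) ≤ (N : ℝ) ^ (8 * ε) := by
      have h3 := isLittleO_log_rpow_rpow_atTop ((K + A : ℕ) : ℝ) (by linarith : 0 < 8 * ε)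
      have h4 := (h3.bound (by norm_num : (0 : ℝ) < 1 / 128))
      have h5 := tendsto_natCast_atTop_atTop (R := ℝ) |>.eventually h4
      filter_upwards [h5, h1] with N h6 h7
      rw [Real.rpow_natCast, Real.norm_of_nonneg (pow_nonneg (by linarith) _),
        Real.norm_of_nonneg (Real.rpow_nonneg (Nat.cast_nonneg _) _)] at h6
      linarith
    obtain ⟨N₀, h⟩ := Filter.eventually_atTop.1 (h1.and h2)
    exact ⟨N₀, fun N hN => h N hN⟩
  refine ⟨max N₀ 1, fun N hN δ hδ hδ' G hG hG0 hGC hm hT2 => ?_⟩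
  obtain ⟨hL, hlarge⟩ := hN₀ N ((le_max_left _ _).trans hN)
  have hN1 : 1 ≤ N := (le_max_right _ _).trans hN
  have hn1 : (1 : ℝ) ≤ (N : ℝ) := by exact_mod_cast hN1
  have hn0 : (0 : ℝ) < (N : ℝ) := by linarith
  have hδ0 : (0 : ℝ) < δ := lt_of_lt_of_le (Real.rpow_pos_of_pos hn0 _) hδ
  have hδ1 : δ ≤ 1 := by
    refine hδ'.trans ?_
    rw [div_le_one (by positivity)]
    exact one_le_pow₀ (by linarith)
  have hI := PIN_int δ (1 / Real.log N ^ B) _ hδ0.le hδ1 G hG hG0 hGC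
  refine ⟨hI, ?_⟩
  have hT1 : (1 : ℝ) ≤ (N : ℝ) ^ (2 - 4 * ε) := Real.one_le_rpow hn1 (by linarith)
  have h1 := PIN_all δ (1 / Real.log N ^ B) ((N : ℝ) ^ (2 - 4 * ε)) ((N : ℝ) ^ 3) (Real.log N ^ K) hT1 (by positivity)
    (pow_nonneg (by linarith) _) G hG hG0 hI hm
  have h2 := PIN_mid ε B₁ N δ (1 / Real.log N ^ B) _ (by linarith) G hG hG0 hGC hI (by linarith)
  have h3 := PIN_num A c K B₁ B (N : ℝ) (Real.log N) ε δ _ hn1 hL hlarge hB hδ hT2 hε0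
  linarith

end Pool.Agent.FJ
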