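import Pool.Agent.helper94.FJ.SpecP

/-!
# fj:PMS: mean square over the windows
-/

set_option autoImplicit false

namespace Pool.Agent.FJ

open Finset ArithmeticFunction MeasureTheory
open Pool.Agent.CH (nit DPb)
open Pool.Agent.SK (tr0 Th muz sml bgf zN uu)
open Pool.Agent.helper85.BVP (tau)

private theorem PMS_bxw_meas (δ y : ℝ) : Measurable fun v : ℝ => bxw δ (y - v) := by
  unfold bxw
  exact Measurable.ite (measurableSet_le (measurable_const.sub measurable_id).abs measurable_const) measurable_const measurable_const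

private theorem PMS_kbw_meas (δ δ' y : ℝ) : Measurable fun v : ℝ => kbw δ δ' (y - v) := by
  unfold kbw
  exact (PMS_bxw_meas δ y).sub ((PMS_bxw_meas δ' y).const_mul _)

private theorem PMS_bxw_abs (δ y : ℝ) : |bxw δ y| ≤ 1 := by
  unfold bxw
  split_ifs
  · rw [abs_one]
  · rw [abs_zero]
    exact zero_le_one

private theorem PMS_kbw_abs (δ δ' y : ℝ) (h0 : 0 < δ) (h1 : δ ≤ δ') : |kbw δ δ' y| ≤ 2 := by
  have hδ' : 0 < δ' := lt_of_lt_of_le h0 h1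
  have hr0 : 0 ≤ δ / δ' := by positivity
  have hr1 : δ / δ' ≤ 1 := (div_le_one hδ').2 h1
  unfold kbw
  refine (abs_sub _ _).trans ?_
  rw [abs_mul, abs_of_nonneg hr0]
  have h2 := PMS_bxw_abs δ y
  have h3 := mul_le_mul hr1 (PMS_bxw_abs δ' y) (abs_nonneg _) zero_le_one
  linarith

/-- integrability on a bounded interval -/
private theorem PMS_ii (S : Finset ℕ) (c : ℕ → ℂ) (k : ℝ → ℝ) (hk : ∀ y : ℝ, Measurable fun v : ℝ => k (y - v)) (hb : ∀ y, |k y| ≤ 2) (a b : ℝ) :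
    IntervalIntegrable (fun v : ℝ => ‖∑ m ∈ S, c m * ((k (Real.log (m : ℝ) - v) : ℝ) : ℂ)‖ ^ 2) volume a b := by
  have hm : Measurable (fun v : ℝ => ‖∑ m ∈ S, c m * ((k (Real.log (m : ℝ) - v) : ℝ) : ℂ)‖ ^ 2) := by
    refine Measurable.pow_const (Measurable.norm ?_) 2
    exact Finset.measurable_sum S fun m _ => (Complex.measurable_ofReal.comp (hk _)).const_mul _
  refine (intervalIntegrable_const (c := (∑ m ∈ S, ‖c m‖ * 2) ^ 2)).mono_fun' hm.aestronglyMeasurable ?_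
  refine Filter.Eventually.of_forall fun v => ?_
  show ‖‖∑ m ∈ S, c m * ((k (Real.log (m : ℝ) - v) : ℝ) : ℂ)‖ ^ 2‖ ≤ _
  rw [norm_pow, norm_norm]
  refine pow_le_pow_left₀ (norm_nonneg _) ((norm_sum_le _ _).trans (Finset.sum_le_sum fun m _ => ?_)) 2
  rw [norm_mul, Complex.norm_real, Real.norm_eq_abs]
  exact mul_le_mul_of_nonneg_left (hb _) (norm_nonneg _)

private theorem PMS_sq (a b c : ℂ) (β γ : ℝ) (hb : ‖b‖ ≤ β) (hc : ‖c‖ ≤ γ) : ‖a - b + c‖ ^ 2 ≤ 3 * ‖a‖ ^ 2 + 3 * (β ^ 2 + γ ^ 2) := by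
  have h1 : ‖a - b + c‖ ≤ ‖a‖ + β + γ := (norm_add_le _ _).trans (by linarith [norm_sub_le a b])
  have h2 : ‖a - b + c‖ ^ 2 ≤ (‖a‖ + β + γ) ^ 2 := pow_le_pow_left₀ (norm_nonneg _) h1 2
  nlinarith [sq_nonneg (‖a‖ - β), sq_nonneg (‖a‖ - γ), sq_nonneg (β - γ)]

/-- numerics -/
private theorem PMS_num (A B : ℕ) (n L ε δ : ℝ) (hn : 1 ≤ n) (hL : 6 ≤ L) (hε : 0 < ε) (hlarge : 48 * L ^ (A + 3) ≤ n ^ 2)
    (hB : A + 3 ≤ B) (hδ : n ^ (-2 + 8 * ε) ≤ δ) :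
    3 * (δ ^ 2 * n ^ 6 / L ^ (A + 3)) + 2 * (3 * ((3 * n ^ 3 * δ * (1 / L ^ B) ^ 2 + 2) ^ 2 +
      (δ * L ^ B * (n ^ 3 / L ^ (A + B + 3))) ^ 2)) ≤ δ ^ 2 * n ^ 6 / L ^ A := by
  have hn0 : (0 : ℝ) < n := by linarith
  have hL0 : (0 : ℝ) < L := by linarith
  have hL1 : (1 : ℝ) ≤ L := by linarith
  have hδ0 : (0 : ℝ) < δ := lt_of_lt_of_le (Real.rpow_pos_of_pos hn0 _) hδ
  have hA3 : (1 : ℝ) ≤ L ^ (A + 3) := one_le_pow₀ hL1
  set W := δ ^ 2 * n ^ 6 with hW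
  have hW0 : 0 < W := by positivity
  have hnW : n ^ 2 ≤ W := by
    have h6 : (n ^ (-2 + 8 * ε)) ^ 2 ≤ δ ^ 2 := pow_le_pow_left₀ (Real.rpow_nonneg hn0.le _) hδ 2
    have h7 : n ^ (2 + 16 * ε) = (n ^ (-2 + 8 * ε)) ^ 2 * n ^ 6 := by
      rw [← Real.rpow_natCast (n ^ (-2 + 8 * ε)), ← Real.rpow_mul hn0.le, ← Real.rpow_natCast n 6, ← Real.rpow_add hn0]
      congr 1
      push_cast
      ring
    calc n ^ 2 = n ^ ((2 : ℕ) : ℝ) := (Real.rpow_natCast n 2).symm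
      _ ≤ n ^ (2 + 16 * ε) := Real.rpow_le_rpow_of_exponent_le hn (by push_cast; linarith)
      _ = (n ^ (-2 + 8 * ε)) ^ 2 * n ^ 6 := h7
      _ ≤ W := mul_le_mul_of_nonneg_right h6 (by positivity)
  have h1 : (3 * n ^ 3 * δ * (1 / L ^ B) ^ 2 + 2) ^ 2 ≤ 18 * (W / L ^ (A + 3)) + 8 := by
    have h2 : (3 * n ^ 3 * δ * (1 / L ^ B) ^ 2 + 2) ^ 2 ≤ 2 * (3 * n ^ 3 * δ * (1 / L ^ B) ^ 2) ^ 2 + 8 := by
      nlinarith [sq_nonneg (3 * n ^ 3 * δ * (1 / L ^ B) ^ 2 - 2)]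
    have h3 : (3 * n ^ 3 * δ * (1 / L ^ B) ^ 2) ^ 2 ≤ 9 * (W / L ^ (A + 3)) := by
      have h4 : (3 * n ^ 3 * δ * (1 / L ^ B) ^ 2) ^ 2 = 9 * (W / L ^ (4 * B)) := by
        rw [hW, show 4 * B = B * 4 by ring, pow_mul L B 4]
        field_simp
        ring
      rw [h4]
      apply mul_le_mul_of_nonneg_left _ (by norm_num)
      exact div_le_div_of_nonneg_left hW0.le (by positivity) (pow_le_pow_right₀ hL1 (by omega))
    linarith
  have h2 : (8 : ℝ) ≤ 8 * W / L ^ (A + 3) := by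
    rw [le_div_iff₀ (by positivity)]
    have : L ^ (A + 3) ≤ W := by linarith
    linarith
  have h3 : (δ * L ^ B * (n ^ 3 / L ^ (A + B + 3))) ^ 2 ≤ W / L ^ (A + 3) := by
    have h4 : (δ * L ^ B * (n ^ 3 / L ^ (A + B + 3))) ^ 2 = W / (L ^ (A + 3)) ^ 2 := by
      rw [hW, show A + B + 3 = B + (A + 3) by ring, pow_add L B]
      field_simp
    rw [h4]
    apply div_le_div_of_nonneg_left hW0.le (by positivity)
    nlinarith
  have h4 : 3 * (W / L ^ (A + 3)) + 2 * (3 * ((18 * (W / L ^ (A + 3)) + 8 * W / L ^ (A + 3)) + W / L ^ (A + 3))) ≤ W / L ^ A := by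
    have h5 : (165 : ℝ) ≤ L ^ 3 := by
      calc (165 : ℝ) ≤ 6 ^ 3 := by norm_num
        _ ≤ L ^ 3 := pow_le_pow_left₀ (by norm_num) hL 3
    rw [le_div_iff₀ (by positivity)]
    have h6 : (3 * (W / L ^ (A + 3)) + 2 * (3 * ((18 * (W / L ^ (A + 3)) + 8 * W / L ^ (A + 3)) + W / L ^ (A + 3)))) * L ^ A =
        165 * W / L ^ 3 := by
      rw [pow_add]
      field_simp
      ring
    rw [h6, div_le_iff₀ (by positivity)]
    nlinarith
  linarith

theorem PMS (hPCO : PCO_stmt) (hPWI : PWI_stmt) (hPCI : PCI_stmt) : PMS_stmt := by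
  intro ε hε0 hε1 A Bq
  obtain ⟨B₀, hB₀⟩ := hPCO ε hε0 hε1 (A + 3) Bq
  obtain ⟨N₁, hN₁⟩ := hB₀ (max B₀ (A + 3)) (le_max_left _ _)
  obtain ⟨N₂, hN₂⟩ := hPWI (A + max B₀ (A + 3) + 3) Bq
  obtain ⟨N₃, hN₃⟩ := hPCI
  obtain ⟨N₄, hN₄⟩ : ∃ N₀ : ℕ, ∀ N : ℕ, N₀ ≤ N → (6 ≤ Real.log N ∧ 48 * Real.log N ^ (A + 3) ≤ (N : ℝ) ^ 2) := by
    have h1 : ∀ᶠ N : ℕ in Filter.atTop, 6 ≤ Real.log (N : ℝ) :=
      (Real.tendsto_log_atTop.comp tendsto_natCast_atTop_atTop).eventually_ge_atTop 6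
    have h2 : ∀ᶠ N : ℕ in Filter.atTop, 48 * Real.log (N : ℝ) ^ (A + 3) ≤ (N : ℝ) ^ 2 := by
      have h3 := isLittleO_log_rpow_rpow_atTop ((A + 3 : ℕ) : ℝ) (by norm_num : (0 : ℝ) < ((2 : ℕ) : ℝ))
      have h4 := (h3.bound (by norm_num : (0 : ℝ) < 1 / 48))
      have h5 := tendsto_natCast_atTop_atTop (R := ℝ) |>.eventually h4
      filter_upwards [h5, h1] with N h6 h7
      rw [Real.rpow_natCast, Real.rpow_natCast, Real.norm_of_nonneg (pow_nonneg (by linarith) _),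
        Real.norm_of_nonneg (pow_nonneg (Nat.cast_nonneg _) _)] at h6
      linarith
    obtain ⟨N₀, h⟩ := Filter.eventually_atTop.1 (h1.and h2)
    exact ⟨N₀, fun N hN => h N hN⟩
  set B := max B₀ (A + 3) with hBdef
  refine ⟨B, max (max N₁ N₂) (max N₃ (max N₄ 1)), fun N hN δ hδ hδ' q hq1 hqL ψ hψ => ?_⟩
  have g1 : N₁ ≤ N := (le_max_left _ _).trans ((le_max_left _ _).trans hN)
  have g2 : N₂ ≤ N := (le_max_right _ _).trans ((le_max_left _ _).trans hN)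
  have g3 : N₃ ≤ N := (le_max_left _ _).trans ((le_max_right _ _).trans hN)
  have g4 : N₄ ≤ N := (le_max_left _ _).trans ((le_max_right _ _).trans ((le_max_right _ _).trans hN))
  have g5 : 1 ≤ N := (le_max_right _ _).trans ((le_max_right _ _).trans ((le_max_right _ _).trans hN))
  obtain ⟨hLL, hlarge⟩ := hN₄ N g4
  have hn1 : (1 : ℝ) ≤ (N : ℝ) := by exact_mod_cast g5
  have hn0 : (0 : ℝ) < (N : ℝ) := by linarith
  have hL0 : (0 : ℝ) < Real.log N := by linarith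
  have hδ0 : (0 : ℝ) < δ := lt_of_lt_of_le (Real.rpow_pos_of_pos hn0 _) hδ
  have hLB : (0 : ℝ) < Real.log N ^ B := pow_pos hL0 _
  have hδ'0 : (0 : ℝ) < 1 / Real.log N ^ B := by positivity
  have hδ'1 : 1 / Real.log N ^ B ≤ 1 := by
    rw [div_le_one hLB]
    exact one_le_pow₀ (by linarith)
  have hpt : ∀ v : ℝ, |v - 3 * Real.log N| ≤ 1 → ‖∑ m ∈ Ioc 0 (64 * N ^ 3), hL q ψ m * ((bxw δ (Real.log m - v) : ℝ) : ℂ)‖ ^ 2 ≤
      3 * ‖∑ m ∈ Ioc 0 (64 * N ^ 3), (vonMangoldt m : ℂ) * ψ m * ((kbw δ (1 / Real.log N ^ B) (Real.log m - v) : ℝ) : ℂ)‖ ^ 2 +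
        3 * ((3 * (N : ℝ) ^ 3 * δ * (1 / Real.log N ^ B) ^ 2 + 2) ^ 2 +
          (δ * Real.log N ^ B * ((N : ℝ) ^ 3 / Real.log N ^ (A + B + 3))) ^ 2) := by
    intro v hv
    have hw := hN₂ N g2 v (1 / Real.log N ^ B) hv hδ'0 hδ'1 q hq1 hqL ψ hψ
    have hc := hN₃ N g3 v δ (1 / Real.log N ^ B) hv hδ0 hδ' hδ'1
    have hid : ∑ m ∈ Ioc 0 (64 * N ^ 3), hL q ψ m * ((bxw δ (Real.log m - v) : ℝ) : ℂ) =
        (∑ m ∈ Ioc 0 (64 * N ^ 3), (vonMangoldt m : ℂ) * ψ m * ((kbw δ (1 / Real.log N ^ B) (Real.log m - v) : ℝ) : ℂ)) -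
          (∑ m ∈ Ioc (0 : ℕ) (64 * N ^ 3), (if q = 1 then 1 else 0) * ψ m * ((kbw δ (1 / Real.log N ^ B) (Real.log m - v) : ℝ) : ℂ)) +
          ((δ / (1 / Real.log N ^ B) : ℝ) : ℂ) * ∑ m ∈ Ioc 0 (64 * N ^ 3), hL q ψ m * ((bxw (1 / Real.log N ^ B) (Real.log m - v) : ℝ) : ℂ) := by
      rw [Finset.mul_sum, ← Finset.sum_sub_distrib, ← Finset.sum_add_distrib]
      refine Finset.sum_congr rfl fun m _ => ?_
      unfold hL kbw
      push_cast
      ring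
    rw [hid]
    apply PMS_sq
    · by_cases hq : q = 1
      · subst hq
        have h3 : (∑ m ∈ Ioc (0 : ℕ) (64 * N ^ 3), (if (1 : ℕ) = 1 then (1 : ℂ) else 0) * ψ m * ((kbw δ (1 / Real.log N ^ B) (Real.log m - v) : ℝ) : ℂ)) =
            ((∑ m ∈ Ioc (0 : ℕ) (64 * N ^ 3), kbw δ (1 / Real.log N ^ B) (Real.log (m : ℝ) - v) : ℝ) : ℂ) := by
          rw [Complex.ofReal_sum]
          refine Finset.sum_congr rfl fun m _ => ?_
          rw [if_pos rfl, one_mul]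
          have h4 : ((m : ZMod 1)) = 1 := Subsingleton.elim _ _
          rw [h4, map_one, one_mul]
        rw [h3, Complex.norm_real, Real.norm_eq_abs]
        refine hc.trans ?_
        have hev : Real.exp v ≤ 3 * (N : ℝ) ^ 3 := by
          have h4 : v ≤ 1 + 3 * Real.log N := by
            have := (abs_le.1 hv).2
            linarith
          have h5 : Real.exp (1 + 3 * Real.log N) = Real.exp 1 * (N : ℝ) ^ 3 := by
            rw [Real.exp_add]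
            congr 1
            have h6 : 3 * Real.log (N : ℝ) = Real.log ((N : ℝ) ^ 3) := by
              rw [Real.log_pow]
              push_cast
              ring
            rw [h6, Real.exp_log (by positivity)]
          have h7 : Real.exp 1 ≤ 3 := by linarith [Real.exp_one_lt_d9]
          calc Real.exp v ≤ Real.exp (1 + 3 * Real.log N) := Real.exp_le_exp.2 h4
            _ = Real.exp 1 * (N : ℝ) ^ 3 := h5
            _ ≤ 3 * (N : ℝ) ^ 3 := mul_le_mul_of_nonneg_right h7 (by positivity)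
        have h8 : Real.exp v * δ * (1 / Real.log N ^ B) ^ 2 ≤ 3 * (N : ℝ) ^ 3 * δ * (1 / Real.log N ^ B) ^ 2 :=
          mul_le_mul_of_nonneg_right (mul_le_mul_of_nonneg_right hev hδ0.le) (sq_nonneg _)
        linarith
      · have h3 : (∑ m ∈ Ioc (0 : ℕ) (64 * N ^ 3), (if q = 1 then (1 : ℂ) else 0) * ψ m * ((kbw δ (1 / Real.log N ^ B) (Real.log m - v) : ℝ) : ℂ)) = 0 := by
          refine Finset.sum_eq_zero fun m _ => ?_
          rw [if_neg hq, zero_mul, zero_mul]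
        rw [h3, norm_zero]
        positivity
    · rw [norm_mul, Complex.norm_real, Real.norm_eq_abs, abs_of_pos (by positivity)]
      have h3 : δ / (1 / Real.log N ^ B) = δ * Real.log N ^ B := by
        field_simp
      rw [h3]
      exact mul_le_mul_of_nonneg_left hw (by positivity)
  -- integrate
  have hm := hN₁ N g1 δ hδ hδ' q hq1 hqL ψ
  have hi1 : IntervalIntegrable (fun v : ℝ => ‖∑ m ∈ Ioc 0 (64 * N ^ 3), hL q ψ m * ((bxw δ (Real.log m - v) : ℝ) : ℂ)‖ ^ 2) volume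
      (3 * Real.log N - 1) (3 * Real.log N + 1) :=
    PMS_ii _ (fun m => hL q ψ m) (bxw δ) (PMS_bxw_meas δ) (fun y => (PMS_bxw_abs δ y).trans (by norm_num)) _ _
  have hi2 : IntervalIntegrable (fun v : ℝ => ‖∑ m ∈ Ioc 0 (64 * N ^ 3),
      (vonMangoldt m : ℂ) * ψ m * ((kbw δ (1 / Real.log N ^ B) (Real.log m - v) : ℝ) : ℂ)‖ ^ 2) volume
      (3 * Real.log N - 1) (3 * Real.log N + 1) :=
    PMS_ii _ (fun m => (vonMangoldt m : ℂ) * ψ m) (kbw δ (1 / Real.log N ^ B)) (PMS_kbw_meas δ _) (fun y => PMS_kbw_abs δ _ y hδ0 hδ') _ _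
  have hle : 3 * Real.log N - 1 ≤ 3 * Real.log N + 1 := by linarith
  have hmono := intervalIntegral.integral_mono_on hle hi1
    ((hi2.const_mul 3).add (intervalIntegrable_const (c := 3 * ((3 * (N : ℝ) ^ 3 * δ * (1 / Real.log N ^ B) ^ 2 + 2) ^ 2 +
          (δ * Real.log N ^ B * ((N : ℝ) ^ 3 / Real.log N ^ (A + B + 3))) ^ 2)))) (fun v hv => hpt v (by
      rw [abs_le]
      constructor <;> linarith [hv.1, hv.2]))
  refine hmono.trans ?_
  have hadd := intervalIntegral.integral_add (hi2.const_mul 3) (intervalIntegrable_const (μ := volume) (a := 3 * Real.log N - 1)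
    (b := 3 * Real.log N + 1) (c := 3 * ((3 * (N : ℝ) ^ 3 * δ * (1 / Real.log N ^ B) ^ 2 + 2) ^ 2 +
          (δ * Real.log N ^ B * ((N : ℝ) ^ 3 / Real.log N ^ (A + B + 3))) ^ 2)))
  rw [hadd, intervalIntegral.integral_const_mul, intervalIntegral.integral_const, smul_eq_mul]
  have hnum := PMS_num A B (N : ℝ) (Real.log N) ε δ hn1 hLL hε0 hlarge (le_max_right _ _) hδ
  have h2 : 3 * Real.log N + 1 - (3 * Real.log N - 1) = 2 := by ring
  rw [h2]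
  linarith

end Pool.Agent.FJ
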